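import Pool.Agent.Lib.MP_305fdd_al.F8.DefsO
import Pool.Agent.Lib.MP_305fdd_al.F2X.Stm

/-!
# MP_305fdd_al: the groups `GA β = F ⋊_β ℤ` and their subgroups of finite index
-/

set_option autoImplicit false

namespace Pool.Agent.F8.OV

open Pool.Agent.MP_305fdd_al Pool.Agent.Lib.MP_305fdd_al Pool.Agent.F2X Pool.Agent.F8
  Pool.Agent.F8.HN
open scoped QuadraticAlgebra

section liftA

variable {Q : Type} [Group Q] {β : MulAut F}

theorem liftA_aux (f : F →* Q) (s : Q) (h : ∀ w, f (β w) = s * f w * s⁻¹)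
    (g : Multiplicative ℤ) : f.comp (zpowersHom (MulAut F) β g).toMonoidHom =
      (MulAut.conj (zpowersHom Q s g)).toMonoidHom.comp f := by
  have hi : ∀ w : F, f (β⁻¹ w) = s⁻¹ * f w * s := by
    intro w
    have := h (β⁻¹ w)
    rw [MulAut.apply_inv_self] at this
    rw [this]; group
  have hz : ∀ (n : ℤ) (w : F), f ((β ^ n) w) = s ^ n * f w * (s ^ n)⁻¹ := by
    intro n
    induction n using Int.induction_on with
    | zero => intro w; simp
    | succ i ih =>
      intro w
      rw [zpow_add_one, MulAut.mul_apply, ih, h, zpow_add_one]; group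
    | pred i ih =>
      intro w
      rw [zpow_sub_one, MulAut.mul_apply, ih, hi, zpow_sub_one]; group
  ext w
  exact hz (Multiplicative.toAdd g) _

/-- the universal property of `GA β` -/
def liftA (f : F →* Q) (s : Q) (h : ∀ w, f (β w) = s * f w * s⁻¹) : GA β →* Q :=
  SemidirectProduct.lift f (zpowersHom Q s) (liftA_aux f s h)

theorem liftA_iA (f : F →* Q) (s : Q) (h : ∀ w, f (β w) = s * f w * s⁻¹) (w : F) :
    liftA f s h (iA β w) = f w := SemidirectProduct.lift_inl _ _ _ w

theorem liftA_tA (f : F →* Q) (s : Q) (h : ∀ w, f (β w) = s * f w * s⁻¹) :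
    liftA f s h (tA β) = s := by
  unfold tA liftA
  rw [SemidirectProduct.lift_inr, zpowersHom_apply]; simp

/-- homomorphisms on `GA β` are determined by their values on `F` and `t` -/
theorem homA_ext {f g : GA β →* Q} (h : ∀ w, f (iA β w) = g (iA β w)) (ht : f (tA β) = g (tA β)) :
    f = g := by
  ext x
  obtain ⟨w, n, rfl⟩ := GA_cases β x
  rw [map_mul, map_mul, map_zpow, map_zpow, h, ht]

end liftA

theorem iA_mul_tA_eq_one {β : MulAut F} {w : F} {k : ℤ} (h : iA β w * tA β ^ k = 1) :
    w = 1 ∧ k = 0 := by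
  have h1 : nA β (iA β w * tA β ^ k) = 1 := by rw [h, map_one]
  rw [map_mul, nA_iA, one_mul, map_zpow, nA_tA] at h1
  have hk : k = 0 := by
    have h2 := congrArg Multiplicative.toAdd h1
    rw [toAdd_zpow, toAdd_ofAdd, toAdd_one] at h2
    simpa using h2
  subst hk
  rw [zpow_zero, mul_one] at h
  exact ⟨iA_injective β (by rw [h, map_one]), rfl⟩

/-- changing the automorphism by an inner automorphism: the homomorphism `t ↦ c t` -/
def cjHom (β : MulAut F) (c : F) : GA (MulAut.conj c * β) →* GA β :=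
  liftA (iA β) (iA β c * tA β) (by
    intro w
    have h := tA_conj β w
    rw [MulAut.mul_apply, MulAut.conj_apply, map_mul, map_mul, map_inv, ← h]
    group)

/-- changing the automorphism by an inner automorphism -/
theorem cj_equiv (β : MulAut F) (c : F) : Nonempty (GA (MulAut.conj c * β) ≃* GA β) := by
  have hi : Function.Injective (cjHom β c) := by
    rw [injective_iff_map_eq_one]
    intro g hg
    have hn : nA β (cjHom β c g) = nA (MulAut.conj c * β) g := by
      have h : (nA β).comp (cjHom β c) = nA (MulAut.conj c * β) := by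
        apply homA_ext
        · intro w
          show nA β (cjHom β c (iA _ w)) = _
          unfold cjHom
          rw [liftA_iA, nA_iA, nA_iA]
        · show nA β (cjHom β c (tA _)) = _
          unfold cjHom
          rw [liftA_tA, map_mul, nA_iA, one_mul, nA_tA, nA_tA]
      exact DFunLike.congr_fun h g
    rw [hg, map_one] at hn
    obtain ⟨w, rfl⟩ := GA_ker _ g hn.symm
    unfold cjHom at hg
    rw [liftA_iA] at hg
    have hw : w = 1 := iA_injective β (by rw [hg, map_one])
    rw [hw, map_one]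
  have hs : Function.Surjective (cjHom β c) := by
    intro x
    have hF : ∀ w, iA β w ∈ (cjHom β c).range := fun w =>
      ⟨iA _ w, by unfold cjHom; rw [liftA_iA]⟩
    have ht : tA β ∈ (cjHom β c).range := by
      have h1 : iA β c * tA β ∈ (cjHom β c).range := ⟨tA _, by unfold cjHom; rw [liftA_tA]⟩
      have h2 := mul_mem (inv_mem (hF c)) h1
      rwa [inv_mul_cancel_left] at h2
    obtain ⟨w, k, rfl⟩ := GA_cases β x
    exact mul_mem (hF w) (zpow_mem ht k)
  exact ⟨MulEquiv.ofBijective _ ⟨hi, hs⟩⟩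

theorem tA_pow_conj (β : MulAut F) (k : ℕ) (w : F) :
    tA β ^ k * iA β w * (tA β ^ k)⁻¹ = iA β ((β ^ k) w) := by
  induction k generalizing w with
  | zero => simp
  | succ k ih =>
    have : tA β ^ (k + 1) * iA β w * (tA β ^ (k + 1))⁻¹ =
        tA β ^ k * (tA β * iA β w * (tA β)⁻¹) * (tA β ^ k)⁻¹ := by rw [pow_succ]; group
    rw [this, tA_conj, ih, ← MulAut.mul_apply, ← pow_succ]

/-- the inclusion of `GA (β ^ k)` in `GA β` -/
def incA (β : MulAut F) (k : ℕ) : GA (β ^ k) →* GA β :=
  liftA (iA β) (tA β ^ k) fun w => (tA_pow_conj β k w).symm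

theorem incA_iA (β : MulAut F) (k : ℕ) (w : F) : incA β k (iA (β ^ k) w) = iA β w :=
  liftA_iA _ _ _ _
theorem incA_tA (β : MulAut F) (k : ℕ) : incA β k (tA (β ^ k)) = tA β ^ k := liftA_tA _ _ _

theorem incA_injective (β : MulAut F) (k : ℕ) (hk : 0 < k) : Function.Injective (incA β k) := by
  rw [injective_iff_map_eq_one]
  intro g hg
  obtain ⟨w, j, rfl⟩ := GA_cases _ g
  rw [map_mul, map_zpow, incA_iA, incA_tA, ← zpow_natCast, ← zpow_mul] at hg
  obtain ⟨hw, hj⟩ := iA_mul_tA_eq_one hg
  have hj' : j = 0 := by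
    rcases mul_eq_zero.1 hj with h | h
    · exact absurd h (by exact_mod_cast hk.ne')
    · exact h
  rw [hw, hj', map_one, zpow_zero, mul_one]

/-- the subgroup of index `k` of `GA β` -/
def subA (β : MulAut F) (k : ℕ) : Subgroup (GA β) := ((redZ k).comp (nA β)).ker

theorem subA_eq (β : MulAut F) (k : ℕ) : (incA β k).range = subA β k := by
  apply le_antisymm
  · rintro _ ⟨g, rfl⟩
    obtain ⟨w, j, rfl⟩ := GA_cases _ g
    show redZ k (nA β (incA β k (iA (β ^ k) w * tA (β ^ k) ^ j))) = 1
    rw [map_mul, map_zpow, incA_iA, incA_tA, map_mul, nA_iA, one_mul, map_zpow, map_pow, nA_tA,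
      ← zpow_natCast, ← zpow_mul, mul_comm, zpow_mul, zpow_natCast, redZ_pow_self]
  · intro x hx
    obtain ⟨w, j, rfl⟩ := GA_cases _ x
    have h1 : redZ k (nA β (iA β w * tA β ^ j)) = 1 := hx
    rw [map_mul, nA_iA, one_mul, map_zpow, nA_tA, ← ofAdd_zsmul, redZ_ofAdd] at h1
    have h2 : (((j • (1 : ℤ) : ℤ)) : ZMod k) = 0 := h1
    rw [smul_eq_mul, mul_one, ZMod.intCast_zmod_eq_zero_iff_dvd] at h2
    obtain ⟨c, hc⟩ := h2
    refine ⟨iA (β ^ k) w * tA (β ^ k) ^ c, ?_⟩
    rw [map_mul, map_zpow, incA_iA, incA_tA, ← zpow_natCast, ← zpow_mul, hc]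

/-- the subgroup of index `k` is `GA (β ^ k)` -/
noncomputable def subE (β : MulAut F) (k : ℕ) (hk : 0 < k) : subA β k ≃* GA (β ^ k) :=
  ((MulEquiv.subgroupCongr (subA_eq β k)).symm).trans
    (MonoidHom.ofInjective (incA_injective β k hk)).symm

theorem subA_fi (β : MulAut F) (k : ℕ) (hk : 0 < k) : (subA β k).FiniteIndex := by
  have : NeZero k := ⟨hk.ne'⟩
  have : Finite (Multiplicative (ZMod k)) := inferInstanceAs (Finite (ZMod k))
  exact Subgroup.finiteIndex_ker _

/-- `GA β` has no non-trivial finite normal subgroup -/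
theorem GA_nf (β : MulAut F) (K : Subgroup (GA β)) (hf : Finite K) : K = ⊥ := by
  rw [eq_bot_iff]
  intro x hx
  rw [Subgroup.mem_bot]
  have h1 : x ^ Nat.card K = 1 := by
    have := pow_card_eq_one' (x := (⟨x, hx⟩ : K))
    exact congrArg Subtype.val this
  have hc : Nat.card K ≠ 0 := Nat.card_pos.ne'
  have h2 : nA β x = 1 := by
    have h3 : nA β x ^ Nat.card K = 1 := by rw [← map_pow, h1, map_one]
    have h4 := congrArg Multiplicative.toAdd h3
    rw [toAdd_pow, toAdd_one, nsmul_eq_mul, mul_eq_zero] at h4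
    rcases h4 with h | h
    · exact absurd h (by exact_mod_cast hc)
    · exact Multiplicative.toAdd.injective h
  obtain ⟨w, rfl⟩ := GA_ker β x h2
  rw [← map_pow, ← map_one (iA β)] at h1
  have h5 : w ^ Nat.card K = 1 := iA_injective β h1
  have h6 : w = 1 := by
    apply pow_left_injective hc
    show w ^ Nat.card K = 1 ^ Nat.card K
    rw [h5, one_pow]
  rw [h6, map_one]

/-- `GA β` contains `GA (α ^ n)` if the matrices of `β ^ k` and `α ^ n` agree -/
theorem GA_contains (hout : S_out) (α β : MulAut F) (n k : ℕ) (hk : 0 < k)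
    (h : AM β ^ k = AM α ^ n) : Nonempty (subA β k ≃* GA (α ^ n)) := by
  obtain ⟨c, hc⟩ := hout (β ^ k * (α ^ n)⁻¹) (by
    rw [map_mul, map_inv, map_pow, map_pow, h, mul_inv_cancel])
  have h1 : β ^ k = MulAut.conj c * α ^ n := by
    rw [← hc, inv_mul_cancel_right]
  obtain ⟨e⟩ := cj_equiv (α ^ n) c
  rw [← h1] at e
  exact ⟨(subE β k hk).trans e⟩

end Pool.Agent.F8.OV
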