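import Pool.Agent.Lib.MP_305fdd_al.F8.StmO

/-!
# MP_305fdd_al: the structure `Ov`
-/

set_option autoImplicit false

namespace Pool.Agent.F8.OV

open Pool.Agent.MP_305fdd_al Pool.Agent.Lib.MP_305fdd_al Pool.Agent.F2X Pool.Agent.F8
  Pool.Agent.F8.HN

theorem p_act (hb1 : S_b1) : S_act := by
  intro β hβ G _ N hN e
  have key : ∀ (g : G) (w : F), ∃ w' : F,
      iA β w' = e (MulAut.conjNormal g (e.symm (iA β w))) := by
    intro g w
    have h := hb1 β hβ ((nA β).comp (e.toMonoidHom.comp
      ((MulAut.conjNormal g).toMonoidHom.comp e.symm.toMonoidHom))) w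
    obtain ⟨w', hw'⟩ := GA_ker β (e (MulAut.conjNormal g (e.symm (iA β w)))) h
    exact ⟨w', hw'.symm⟩
  choose c hc using key
  have cmul : ∀ g v w, c g (v * w) = c g v * c g w := by
    intro g v w
    apply iA_injective β
    rw [hc, map_mul (iA β) (c g v), hc, hc, map_mul, map_mul, map_mul, map_mul]
  have c1 : ∀ w, c 1 w = w := by
    intro w
    apply iA_injective β
    rw [hc, map_one, MulAut.one_apply, MulEquiv.apply_symm_apply]
  have cc : ∀ g h w, c (g * h) w = c g (c h w) := by
    intro g h w
    apply iA_injective β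
    rw [hc, hc, hc, MulEquiv.symm_apply_apply, map_mul, MulAut.mul_apply]
  let C : G →* MulAut F :=
    { toFun := fun g =>
        { toFun := c g
          invFun := c g⁻¹
          left_inv := fun w => by rw [← cc, inv_mul_cancel, c1]
          right_inv := fun w => by rw [← cc, mul_inv_cancel, c1]
          map_mul' := cmul g }
      map_one' := MulEquiv.ext fun w => c1 w
      map_mul' := fun g h => MulEquiv.ext fun w => cc g h w }
  refine ⟨⟨e, C, ?_⟩, rfl⟩
  intro g w
  show ((e.symm (iA β (c g w)) : N) : G) = _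
  rw [hc, MulEquiv.symm_apply_apply, MulAut.conjNormal_apply]

end Pool.Agent.F8.OV
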