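import Pool.Agent.Lib.MP_305fdd_al.F8.StmO

/-!
# MP_305fdd_al: the first Betti number of `GA β`
-/

set_option autoImplicit false

namespace Pool.Agent.F8.OV

open Pool.Agent.MP_305fdd_al Pool.Agent.Lib.MP_305fdd_al Pool.Agent.F2X Pool.Agent.F8
  Pool.Agent.F8.HN

private theorem b1_lin (u : F →* Multiplicative ℤ) (w : F) :
    Multiplicative.toAdd (u w) = Multiplicative.toAdd (u ga) * vec w 0 +
      Multiplicative.toAdd (u gb) * vec w 1 := by
  let h2 : F →* Multiplicative ℤ :=
    { toFun := fun w => Multiplicative.ofAdd (Multiplicative.toAdd (u ga) * vec w 0 +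
        Multiplicative.toAdd (u gb) * vec w 1)
      map_one' := by simp
      map_mul' := by
        intro v w
        rw [vec_mul, Pi.add_apply, Pi.add_apply, ← ofAdd_add]
        congr 1
        ring }
  have h : u = h2 := by
    apply hom_ext
    · show u ga = Multiplicative.ofAdd (Multiplicative.toAdd (u ga) * vec ga 0 +
        Multiplicative.toAdd (u gb) * vec ga 1)
      rw [vec_of]
      simp
    · show u gb = Multiplicative.ofAdd (Multiplicative.toAdd (u ga) * vec gb 0 +
        Multiplicative.toAdd (u gb) * vec gb 1)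
      rw [vec_of]
      simp
  exact congrArg Multiplicative.toAdd (DFunLike.congr_fun h w)

theorem p_b1 : S_b1 := by
  intro β hβ f w
  have hinv : ∀ w : F, f (iA β (β w)) = f (iA β w) := by
    intro w
    rw [← tA_conj, map_mul, map_mul, map_inv, mul_comm (f (tA β)), mul_inv_cancel_right]
  have hl := b1_lin (f.comp (iA β))
  have h0 := congrArg Multiplicative.toAdd (hinv ga)
  have h1 := congrArg Multiplicative.toAdd (hinv gb)
  have hw := hl w
  have g0 := hl (β ga)
  have g1 := hl (β gb)
  simp only [MonoidHom.comp_apply] at hw g0 g1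
  rw [h0] at g0
  rw [h1] at g1
  have e00 : vec (β ga) 0 = (AM β).val 0 0 := rfl
  have e10 : vec (β ga) 1 = (AM β).val 1 0 := rfl
  have e01 : vec (β gb) 0 = (AM β).val 0 1 := rfl
  have e11 : vec (β gb) 1 = (AM β).val 1 1 := rfl
  rw [e00, e10] at g0
  rw [e01, e11] at g1
  obtain ⟨hd, ht⟩ := hβ
  rw [Matrix.det_fin_two] at hd
  rw [Matrix.trace_fin_two] at ht
  generalize (AM β).val 0 0 = a at *
  generalize (AM β).val 0 1 = b at *
  generalize (AM β).val 1 0 = c at *
  generalize (AM β).val 1 1 = d at *
  generalize Multiplicative.toAdd (f (iA β ga)) = x at *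
  generalize Multiplicative.toAdd (f (iA β gb)) = y at *
  have hx : (2 - (a + d)) * x = 0 := by
    linear_combination (x) * (-hd) - (d - 1) * g0 + c * g1
  have hy : (2 - (a + d)) * y = 0 := by
    linear_combination (y) * (-hd) - (a - 1) * g1 + b * g0
  have hne : (2 - (a + d)) ≠ 0 := by omega
  have hx0 : x = 0 := (mul_eq_zero.mp hx).resolve_left hne
  have hy0 : y = 0 := (mul_eq_zero.mp hy).resolve_left hne
  rw [hx0, hy0, zero_mul, zero_mul, add_zero] at hw
  exact Multiplicative.toAdd.injective hw

end Pool.Agent.F8.OV
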