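import Pool.Agent.Lib.MP_305fdd_al.F8.StmO

/-! Piece cjg. -/

set_option autoImplicit false

namespace Pool.Agent.F8.OV

open Pool.Agent.MP_305fdd_al Pool.Agent.Lib.MP_305fdd_al Pool.Agent.F2X Pool.Agent.F8
  Pool.Agent.F8.HN
open scoped QuadraticAlgebra

private lemma cjg_inv {A g : GL (Fin 2) ℤ} (h : g * A * g⁻¹ = A⁻¹) : g⁻¹ * A * g = A⁻¹ := by
  have h1 : g * A⁻¹ * g⁻¹ = A := by
    have := congrArg (fun x => x⁻¹) h
    simpa [mul_assoc] using this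
  have h2 : A⁻¹ = g⁻¹ * A * g := by
    conv_rhs => rw [← h1]
    group
  exact h2.symm

private lemma cjg_cinv {A g : GL (Fin 2) ℤ} (h : CI A g) : CI A g⁻¹ := by
  rcases h with h | h
  · left
    have : A = g⁻¹ * A * g := by
      conv_rhs => rw [← h]
      group
    rw [inv_inv, ← this]
  · right
    rw [inv_inv]
    exact cjg_inv h

private lemma cjg_cmul {A g h : GL (Fin 2) ℤ} (hg : CI A g) (hh : CI A h) : CI A (g * h) := by
  have e : g * h * A * (g * h)⁻¹ = g * (h * A * h⁻¹) * g⁻¹ := by group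
  unfold CI
  rw [e]
  rcases hh with hh | hh
  · rw [hh]; exact hg
  · rw [hh]
    have e2 : g * A⁻¹ * g⁻¹ = (g * A * g⁻¹)⁻¹ := by group
    rw [e2]
    rcases hg with hg | hg
    · right; rw [hg]
    · left; rw [hg, inv_inv]

private lemma cjg_zpow {A z : GL (Fin 2) ℤ} (hz : CI A z) (n : ℕ) (j : ℤ) :
    ∃ i : ℤ, z * (A ^ n) ^ j * z⁻¹ = (A ^ n) ^ i := by
  have e : z * (A ^ n) ^ j * z⁻¹ = ((z * A * z⁻¹) ^ n) ^ j := by
    rw [conj_pow, conj_zpow]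
  rw [e]
  rcases hz with hz | hz
  · exact ⟨j, by rw [hz]⟩
  · refine ⟨-j, ?_⟩
    rw [hz, inv_pow, inv_zpow, zpow_neg]

theorem p_cjg (hlc : S_lc) (hmx : S_mx) (hnrm : S_nrm) : S_cjg := by
  rintro α n hyp hlo ⟨s₀, hs₀⟩ hn Γ Λ _ _ Φ Q _ _ π X X' hpr
  obtain ⟨A, hA⟩ : ∃ A, A = AM α := ⟨_, rfl⟩
  have hAn : AM (α ^ n) = A ^ n := by rw [map_pow, hA]
  rw [← hA] at hyp hlo hs₀
  obtain ⟨k, hk, htt⟩ := hpr.tt
  obtain ⟨z, hzA, hzk⟩ : ∃ z : GL (Fin 2) ℤ, CI A z ∧ z * (A ^ n) ^ k * z⁻¹ = A ^ n := by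
    rcases hk with rfl | rfl
    · refine ⟨1, ?_, ?_⟩
      · left; rw [one_mul, inv_one, mul_one]
      · rw [one_mul, inv_one, mul_one, zpow_one]
    · refine ⟨s₀, Or.inr hs₀, ?_⟩
      have e : s₀ * (A ^ n) ^ (-1 : ℤ) * s₀⁻¹ = ((s₀ * A * s₀⁻¹) ^ n) ^ (-1 : ℤ) := by
        rw [conj_pow, conj_zpow]
      rw [e, hs₀, inv_pow, zpow_neg_one, inv_inv]
  have hnX : ∀ g : Γ, CI A (X.Th g) ∧ ∃ j : ℤ, X.Th g ^ Nat.card Q = (A ^ n) ^ j := by
    intro g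
    have h := hnrm α n (by rw [← hA]; exact hyp) hn Γ Q π X g
    rw [hAn, ← hA] at h
    exact h
  have hnX' : ∀ l : Λ, CI A (X'.Th l) ∧ ∃ j : ℤ, X'.Th l ^ Nat.card Q = (A ^ n) ^ j := by
    intro l
    have h := hnrm α n (by rw [← hA]; exact hyp) hn Λ Q (Φ.toFun Q π) X' l
    rw [hAn, ← hA] at h
    exact h
  have hmem : ∀ h : GL (Fin 2) ℤ, h ∈ X'.Th.range.map (MulAut.conj z).toMonoidHom ↔
      ∃ l : Λ, z * X'.Th l * z⁻¹ = h := by
    intro h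
    rw [Subgroup.mem_map]
    constructor
    · rintro ⟨_, ⟨l, rfl⟩, rfl⟩
      exact ⟨l, rfl⟩
    · rintro ⟨l, rfl⟩
      exact ⟨_, ⟨l, rfl⟩, rfl⟩
  obtain ⟨Y, hY⟩ := hmx A hyp hlo n (Nat.card Q) hn Nat.card_pos X.Th.range
    (X'.Th.range.map (MulAut.conj z).toMonoidHom) ⟨X.t, by rw [X.Th_t, hAn]⟩
    (by
      rw [hmem]
      exact ⟨X'.t ^ k, by rw [map_zpow, X'.Th_t, hAn, hzk]⟩)
    (by
      rintro _ ⟨g, rfl⟩
      exact (hnX g).1)
    (by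
      intro h hh
      obtain ⟨l, rfl⟩ := (hmem h).1 hh
      exact cjg_cmul (cjg_cmul hzA (hnX' l).1) (cjg_cinv hzA))
    (by
      rintro _ ⟨g, rfl⟩
      exact (hnX g).2)
    (by
      intro h hh
      obtain ⟨l, rfl⟩ := (hmem h).1 hh
      obtain ⟨j, hj⟩ := (hnX' l).2
      rw [conj_pow, hj]
      exact cjg_zpow hzA n j)
    (by
      intro m hm
      obtain ⟨P, _, _, θ, Z, hZ⟩ := hlc (α ^ n) Γ Λ Φ π.ker _ X X' hpr m hm
      have key : ∀ (g : Γ) (l : Λ), θ g = Φ.toFun P θ l →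
          red m z * Z * red m (X.Th g) = red m (z * X'.Th l * z⁻¹) * (red m z * Z) := by
        intro g l hgl
        have h1 := hZ g l hgl
        calc red m z * Z * red m (X.Th g) = red m z * (Z * red m (X.Th g)) := mul_assoc _ _ _
          _ = red m z * (red m (X'.Th l) * Z) := by rw [h1]
          _ = red m (z * X'.Th l * z⁻¹) * (red m z * Z) := by
              rw [map_mul, map_mul, map_inv]
              group
      refine ⟨red m z * Z, ?_, ?_, ?_⟩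
      · obtain ⟨w', hw'⟩ := htt P θ
        have h2 := key X.t (X'.i w' * X'.t ^ k) hw'.symm
        have h3 : X'.Th (X'.i w' * X'.t ^ k) = (A ^ n) ^ k := by
          rw [map_mul, map_zpow, X'.Th_i, X'.Th_t, hAn, one_mul]
        rw [h3, X.Th_t, hAn, hzk] at h2
        exact h2
      · rintro _ ⟨g, rfl⟩
        have : θ g ∈ (Φ.toFun P θ).range := by rw [Φ.range_eq]; exact ⟨g, rfl⟩
        obtain ⟨l, hl⟩ := this
        exact ⟨_, (hmem _).2 ⟨l, rfl⟩, key g l hl.symm⟩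
      · intro h' hh'
        obtain ⟨l, rfl⟩ := (hmem h').1 hh'
        have : Φ.toFun P θ l ∈ θ.range := by rw [← Φ.range_eq]; exact ⟨l, rfl⟩
        obtain ⟨g, hg⟩ := this
        exact ⟨_, ⟨g, rfl⟩, key g l hg⟩)
  refine ⟨z⁻¹ * Y, fun h => ?_⟩
  rw [hY, hmem]
  constructor
  · rintro ⟨l, hl⟩
    refine ⟨l, ?_⟩
    have e : z⁻¹ * Y * h * (z⁻¹ * Y)⁻¹ = z⁻¹ * (Y * h * Y⁻¹) * z := by group
    rw [e, ← hl]
    group
  · rintro ⟨l, hl⟩
    refine ⟨l, ?_⟩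
    rw [hl]
    group

end Pool.Agent.F8.OV
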