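import Pool.Agent.Lib.MP_305fdd_al.F8.StmO

/-!
# MP_305fdd_al, [F8o cm]: the commutant of a hyperbolic matrix
-/

set_option autoImplicit false

namespace Pool.Agent.F8.OV

open Pool.Agent.MP_305fdd_al Pool.Agent.Lib.MP_305fdd_al Pool.Agent.F2X Pool.Agent.F8
  Pool.Agent.F8.HN

private theorem cm_lin (A g : GL (Fin 2) ℤ) (h : g * A = A * g) :
    A.val 0 1 • g.val = g.val 0 1 • A.val +
      (A.val 0 1 * g.val 0 0 - g.val 0 1 * A.val 0 0) • (1 : Matrix (Fin 2) (Fin 2) ℤ) := by
  have hv : g.val * A.val = A.val * g.val := by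
    have := congrArg Units.val h
    simpa using this
  have h00 := congrFun (congrFun hv 0) 0
  have h01 := congrFun (congrFun hv 0) 1
  simp only [Matrix.mul_apply, Fin.sum_univ_two] at h00 h01
  ext i j
  fin_cases i <;> fin_cases j <;>
    simp only [Matrix.smul_apply, Matrix.add_apply, Matrix.one_apply, Fin.zero_eta, Fin.mk_one,
      Fin.isValue, smul_eq_mul, if_true, zero_ne_one, one_ne_zero, if_false]
  · ring
  · ring
  · linear_combination -h00
  · linear_combination -h01

/-- [F8o cm] -/
theorem p_cm : S_cm := by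
  intro A hq
  refine ⟨cm_lin A, ?_, ?_⟩
  · intro g h hg hh
    have e1 := cm_lin A g hg
    have e2 := cm_lin A h hh
    generalize A.val 0 1 * g.val 0 0 - g.val 0 1 * A.val 0 0 = a at e1
    generalize A.val 0 1 * h.val 0 0 - h.val 0 1 * A.val 0 0 = b at e2
    have e3 : (A.val 0 1 * A.val 0 1) • (g.val * h.val) =
        (A.val 0 1 * A.val 0 1) • (h.val * g.val) := by
      have f1 : (A.val 0 1 * A.val 0 1) • (g.val * h.val) =
          (A.val 0 1 • g.val) * (A.val 0 1 • h.val) := by
        rw [smul_mul_smul_comm]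
      have f2 : (A.val 0 1 * A.val 0 1) • (h.val * g.val) =
          (A.val 0 1 • h.val) * (A.val 0 1 • g.val) := by
        rw [smul_mul_smul_comm]
      rw [f1, f2, e1, e2]
      simp only [add_mul, mul_add, smul_mul_assoc, mul_smul_comm, one_mul, mul_one, smul_add,
        smul_smul]
      rw [mul_comm (h.val 0 1) (g.val 0 1), mul_comm b (g.val 0 1), mul_comm a (h.val 0 1),
        mul_comm b a]
      abel
    apply Units.ext
    rw [Units.val_mul, Units.val_mul]
    ext i j
    have e4 := congrFun (congrFun e3 i) j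
    simp only [Matrix.smul_apply, smul_eq_mul] at e4
    exact mul_left_cancel₀ (mul_ne_zero hq hq) e4
  · intro hA h
    have h1 : A * A = 1 := by
      nth_rewrite 1 [← h]
      exact inv_mul_cancel A
    have hv : A.val * A.val = 1 := by
      have := congrArg Units.val h1
      simpa using this
    have h01 := congrFun (congrFun hv 0) 1
    simp only [Matrix.mul_apply, Fin.sum_univ_two, Matrix.one_apply, zero_ne_one, if_false] at h01
    have h2 : A.val 0 1 * (A.val 0 0 + A.val 1 1) = 0 := by linear_combination h01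
    have h3 := (mul_eq_zero.1 h2).resolve_left hq
    have h4 := hA.2
    rw [Matrix.trace_fin_two, h3] at h4
    omega

end Pool.Agent.F8.OV
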