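import Pool.Agent.Lib.MP_305fdd_al.F8.StmO

/-!
# MP_305fdd_al, piece [F8o com]: matrices commuting with `A ^ n` modulo `m`
-/

set_option autoImplicit false

namespace Pool.Agent.F8.OV

open Pool.Agent.MP_305fdd_al Pool.Agent.Lib.MP_305fdd_al Pool.Agent.F2X Pool.Agent.F8
  Pool.Agent.F8.HN
open scoped QuadraticAlgebra

private theorem com_red_val (m : ℕ) (g : GL (Fin 2) ℤ) :
    (red m g).val = g.val.map (Int.castRingHom (ZMod m)) := rfl

private theorem com_map {R S : Type} [CommRing R] [CommRing S] (f : R →+* S)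
    (M N : Matrix (Fin 2) (Fin 2) R) : (M * N).map f = M.map f * N.map f := Matrix.map_mul

theorem p_com (hpw : S_pw) (hcm : S_cm) (hcs : S_cs) : S_com := by
  intro A hA n m' hn hm'
  obtain ⟨h1, -, hA01, -, -⟩ := hpw A hA
  obtain ⟨k, rfl⟩ : ∃ k, n = k + 1 := ⟨n - 1, by omega⟩
  obtain ⟨u, hu⟩ : ∃ u : ℕ, (u : ℤ) = cs A.val.trace (k + 1) :=
    ⟨(cs A.val.trace (k + 1)).toNat, Int.toNat_of_nonneg ((hcs _ hA.2).2.2.1 (k + 1) hn).le⟩
  have hu0 : 0 < u := by
    have := (hcs _ hA.2).2.2.1 (k + 1) hn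
    rw [← hu] at this
    exact_mod_cast this
  obtain ⟨q, hq⟩ : ∃ q : ℕ, q = (A.val 0 1).natAbs := ⟨_, rfl⟩
  have hq0 : 0 < q := by rw [hq]; exact Int.natAbs_pos.2 hA01
  refine ⟨q * u * m', ⟨q * u, by ring⟩, by positivity, ?_⟩
  intro X hX g hg
  -- an integral representative
  have hZ : ∃ Z : Matrix (Fin 2) (Fin 2) ℤ, Z.map (Int.castRingHom (ZMod (q * u * m'))) = X.val := by
    refine ⟨Matrix.of fun i j => Classical.choose (ZMod.intCast_surjective (X.val i j)), ?_⟩
    ext i j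
    exact Classical.choose_spec (ZMod.intCast_surjective (X.val i j))
  obtain ⟨Z, hZ⟩ := hZ
  have hB : (A ^ (k + 1)).val = (u : ℤ) • A.val - cs A.val.trace k • 1 := by
    rw [hu]; exact h1 k
  have hc : Z * (A ^ (k + 1)).val - (A ^ (k + 1)).val * Z = (u : ℤ) • (Z * A.val - A.val * Z) := by
    rw [hB, mul_sub, sub_mul, Matrix.mul_smul, Matrix.smul_mul, Matrix.mul_smul, Matrix.smul_mul,
      mul_one, one_mul, smul_sub]
    abel
  have hdiv : ∀ i j, ((q * m' : ℕ) : ℤ) ∣ (Z * A.val - A.val * Z) i j := by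
    intro i j
    have h2 := congrArg Units.val hX
    rw [Units.val_mul, Units.val_mul, com_red_val, ← hZ, ← com_map, ← com_map] at h2
    have h3 : (((Z * (A ^ (k + 1)).val - (A ^ (k + 1)).val * Z) i j : ℤ) : ZMod (q * u * m')) = 0 := by
      rw [Matrix.sub_apply, Int.cast_sub, sub_eq_zero]
      exact congrFun (congrFun h2 i) j
    rw [hc, Matrix.smul_apply, smul_eq_mul, ZMod.intCast_zmod_eq_zero_iff_dvd] at h3
    have h4 : ((q * u * m' : ℕ) : ℤ) = (u : ℤ) * ((q * m' : ℕ) : ℤ) := by push_cast; ring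
    rw [h4] at h3
    exact Int.dvd_of_mul_dvd_mul_left (by exact_mod_cast hu0.ne') h3
  -- the commutator with `g`
  have hgA := (hcm A hA01).1 g hg
  have hE : ∀ i j, A.val 0 1 * (Z * g.val - g.val * Z) i j =
      g.val 0 1 * (Z * A.val - A.val * Z) i j := by
    intro i j
    have h2 : A.val 0 1 • (Z * g.val - g.val * Z) = g.val 0 1 • (Z * A.val - A.val * Z) := by
      rw [smul_sub, ← Matrix.mul_smul, ← Matrix.smul_mul, hgA, mul_add, add_mul, Matrix.mul_smul,
        Matrix.smul_mul, Matrix.mul_smul, Matrix.smul_mul, mul_one, one_mul, smul_sub]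
      abel
    have h3 := congrFun (congrFun h2 i) j
    simpa only [Matrix.smul_apply, smul_eq_mul] using h3
  have hdiv' : ∀ i j, (m' : ℤ) ∣ (Z * g.val - g.val * Z) i j := by
    intro i j
    have h2 : ((q * m' : ℕ) : ℤ) ∣ A.val 0 1 * (Z * g.val - g.val * Z) i j := by
      rw [hE]
      exact Dvd.dvd.mul_left (hdiv i j) _
    have h3 : A.val 0 1 * m' ∣ A.val 0 1 * (Z * g.val - g.val * Z) i j := by
      refine dvd_trans ?_ h2
      have h4 : A.val 0 1 ∣ (q : ℤ) := by
        rw [hq]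
        exact Int.dvd_natAbs.2 dvd_rfl
      push_cast
      exact mul_dvd_mul_right h4 _
    exact Int.dvd_of_mul_dvd_mul_left hA01 h3
  apply Units.ext
  rw [Units.val_mul, Units.val_mul, com_red_val]
  have hXm : (redm (⟨q * u, by ring⟩ : m' ∣ q * u * m') X).val =
      Z.map (Int.castRingHom (ZMod m')) := by
    show X.val.map (ZMod.castHom _ (ZMod m')) = _
    rw [← hZ]
    ext i j
    simp
  rw [hXm, ← com_map, ← com_map]
  ext i j
  have h2 := hdiv' i j
  rw [← ZMod.intCast_zmod_eq_zero_iff_dvd, Matrix.sub_apply, Int.cast_sub, sub_eq_zero] at h2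
  exact h2

end Pool.Agent.F8.OV
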