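import Pool.Agent.Lib.MP_305fdd_al.F8.StmO

/-!
# MP_305fdd_al, overgroups of the figure-eight family, piece [F8o cs]: the sequence `cs`
-/

set_option autoImplicit false

namespace Pool.Agent.F8.OV

private theorem cs_rec (T : ℤ) (k : ℕ) : cs T (k + 2) = T * cs T (k + 1) - cs T k := rfl

private theorem cs_z (T : ℤ) : cs T 0 = 0 := rfl

private theorem cs_o (T : ℤ) : cs T 1 = 1 := rfl

private theorem cs_mono (T : ℤ) (hT : 2 < T) (k : ℕ) : 0 ≤ cs T k ∧ cs T k + 1 ≤ cs T (k + 1) := by
  induction k with
  | zero => rw [cs_z, cs_o]; norm_num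
  | succ k ih =>
    obtain ⟨h1, h2⟩ := ih
    refine ⟨by linarith, ?_⟩
    rw [cs_rec]
    have h3 : 3 * cs T (k + 1) ≤ T * cs T (k + 1) :=
      mul_le_mul_of_nonneg_right (by linarith) (by linarith)
    linarith

private theorem cs_add (T : ℤ) (b : ℕ) : ∀ a : ℕ,
    cs T (a + b + 1) = cs T (a + 1) * cs T (b + 1) - cs T a * cs T b := by
  induction b with
  | zero => intro a; rw [Nat.add_zero, Nat.zero_add, cs_o, cs_z]; ring
  | succ b ih =>
    intro a
    have h1 := ih (a + 1)
    have e1 : a + (b + 1) + 1 = a + 1 + b + 1 := by ring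
    rw [e1, h1, cs_rec, cs_rec]
    ring

private theorem cs_quad (T : ℤ) (k : ℕ) :
    cs T (k + 1) * cs T (k + 1) - T * cs T (k + 1) * cs T k + cs T k * cs T k = 1 := by
  induction k with
  | zero => rw [Nat.zero_add, cs_o, cs_z]; ring
  | succ k ih =>
    rw [cs_rec]
    linear_combination ih

private theorem cs_cop (T : ℤ) (k : ℕ) : IsCoprime (cs T (k + 1)) (cs T k) :=
  ⟨cs T (k + 1) - T * cs T k, cs T k, by linear_combination cs_quad T k⟩

private theorem cs_dvd (T : ℤ) (hT : 2 < T) (J : ℕ) (hJ : 0 < J) (i : ℕ) :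
    cs T J ∣ cs T i → J ∣ i := by
  have hm : StrictMono (cs T) := strictMono_nat_of_lt_succ fun k => by
    have := (cs_mono T hT k).2
    linarith
  induction i using Nat.strong_induction_on with
  | _ i ih =>
    intro h
    rcases lt_or_ge i J with h1 | h1
    · rcases Nat.eq_zero_or_pos i with h2 | h2
      · rw [h2]; exact dvd_zero J
      · exfalso
        have h3 : cs T i < cs T J := hm h1
        have h4 : cs T 0 < cs T i := hm h2
        rw [cs_z] at h4
        exact absurd (Int.le_of_dvd h4 h) (not_le.2 h3)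
    · obtain ⟨b, rfl⟩ : ∃ b, J = b + 1 := ⟨J - 1, by omega⟩
      obtain ⟨c, rfl⟩ : ∃ c, i = c + (b + 1) := ⟨i - (b + 1), by omega⟩
      have e := cs_add T b c
      rw [← add_assoc, e] at h
      have h2 : cs T (b + 1) ∣ cs T c * cs T b := by
        have h3 := dvd_sub (dvd_mul_left (cs T (b + 1)) (cs T (c + 1))) h
        rwa [sub_sub_cancel] at h3
      have h4 := (cs_cop T b).dvd_of_dvd_mul_right h2
      have h5 := ih c (by omega) h4
      exact dvd_add h5 (dvd_refl _)

theorem p_cs : S_cs := by
  intro T hT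
  have hm : StrictMono (cs T) := strictMono_nat_of_lt_succ fun k => by
    have := (cs_mono T hT k).2
    linarith
  refine ⟨fun k => hm (Nat.lt_succ_self k), ?_, ?_, fun a b => cs_add T b a,
    fun J i hJ h => cs_dvd T hT J hJ i h⟩
  · intro k
    induction k with
    | zero => rw [cs_z]; norm_num
    | succ k ih =>
      have := (cs_mono T hT k).2
      push_cast
      linarith
  · intro k hk
    have := hm hk
    rwa [cs_z] at this

end Pool.Agent.F8.OV
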