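import Pool.Agent.Lib.MP_305fdd_al.F8.StmO

/-!
# MP_305fdd_al: [F8o fai] faithfulness
-/

set_option autoImplicit false

namespace Pool.Agent.F8.OV

open Pool.Agent.MP_305fdd_al Pool.Agent.Lib.MP_305fdd_al Pool.Agent.F2X Pool.Agent.F8
  Pool.Agent.F8.HN
open scoped QuadraticAlgebra

theorem p_fai (hpw : S_pw) (hcen : Pool.Agent.F2X.S_cen) (hout : Pool.Agent.F2X.S_out) :
    S_fai := by
  intro β hβ G _ N X
  have h1 : ∀ x ∈ N, X.c x = 1 → x = 1 := by
    intro x hx hc
    obtain ⟨w, k, rfl⟩ := X.mem_cases x hx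
    have h2 : X.Th (X.i w * X.t ^ k) = AM β ^ k := by
      rw [map_mul, map_zpow, X.Th_i, X.Th_t, one_mul]
    have h3 : X.Th (X.i w * X.t ^ k) = 1 := by rw [X.Th_apply, hc, map_one]
    have h4 : k = 0 := (hpw (AM β) hβ).2.2.2.2 k (h2.symm.trans h3)
    subst h4
    rw [zpow_zero, mul_one] at hc ⊢
    rw [X.c_i] at hc
    have h5 : w = 1 := by
      refine hcen w fun v => ?_
      have h6 := DFunLike.congr_fun hc v
      rw [MulAut.conj_apply, MulAut.one_apply] at h6
      exact mul_inv_eq_iff_eq_mul.1 h6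
    rw [h5, map_one]
  refine ⟨h1, ?_, ?_⟩
  · intro hN hfin hK
    have h2 : X.c.ker = ⊥ := by
      refine hK _ inferInstance ?_
      have hfq : Finite (G ⧸ N) := Subgroup.finite_quotient_of_finiteIndex
      refine Finite.of_injective (fun x : X.c.ker => (QuotientGroup.mk (x : G) : G ⧸ N)) ?_
      intro x y hxy
      have h3 : (x : G)⁻¹ * y ∈ N := QuotientGroup.eq.1 hxy
      have h4 := h1 _ h3 (by
        rw [map_mul, map_inv, MonoidHom.mem_ker.1 x.2, MonoidHom.mem_ker.1 y.2, inv_one, mul_one])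
      exact Subtype.ext (inv_mul_eq_one.1 h4)
    exact (MonoidHom.ker_eq_bot_iff _).1 h2
  · intro hinj g k hg
    have h2 : AM (X.c g * β ^ (-k)) = 1 := by
      rw [map_mul, map_zpow, ← X.Th_apply, hg, ← zpow_add, add_neg_cancel, zpow_zero]
    obtain ⟨w, hw⟩ := hout _ h2
    have h3 : X.c g = X.c (X.i w * X.t ^ k) := by
      rw [map_mul, map_zpow, X.c_i, X.c_t, ← hw, mul_assoc, ← zpow_add, neg_add_cancel, zpow_zero,
        mul_one]
    rw [hinj h3]
    exact N.mul_mem (X.i_mem w) (N.zpow_mem X.t_mem k)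

end Pool.Agent.F8.OV
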