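import Pool.Agent.Lib.MP_305fdd_al.F8.StmO

/-!
# MP_305fdd_al: finite generation of `F ⋊ ℤ` and of the groups which contain it with finite index.
-/

set_option autoImplicit false

namespace Pool.Agent.F8.OV

open Pool.Agent.MP_305fdd_al Pool.Agent.Lib.MP_305fdd_al Pool.Agent.F2X Pool.Agent.F8
  Pool.Agent.F8.HN

private theorem fin_idx {Γ : Type} [Group Γ] (N : Subgroup Γ) [N.FiniteIndex] (h : Group.FG N) :
    Group.FG Γ := by
  classical
  obtain ⟨S, hS⟩ := (Group.fg_iff_subgroup_fg N).1 h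
  have hfin : Finite (Γ ⧸ N) := inferInstance
  rw [Group.fg_iff]
  refine ⟨(S : Set Γ) ∪ Set.range (fun q : Γ ⧸ N => q.out), ?_,
    S.finite_toSet.union (Set.finite_range _)⟩
  rw [eq_top_iff]
  intro g _
  have h1 : ((g : Γ ⧸ N).out)⁻¹ * g ∈ N := by
    rw [← QuotientGroup.eq]
    exact QuotientGroup.out_eq' _
  have h2 : N ≤ Subgroup.closure ((S : Set Γ) ∪ Set.range (fun q : Γ ⧸ N => q.out)) := by
    rw [← hS]
    exact Subgroup.closure_mono Set.subset_union_left
  have h3 : (g : Γ ⧸ N).out ∈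
      Subgroup.closure ((S : Set Γ) ∪ Set.range (fun q : Γ ⧸ N => q.out)) :=
    Subgroup.subset_closure (Or.inr ⟨_, rfl⟩)
  have h4 := mul_mem h3 (h2 h1)
  rwa [mul_inv_cancel_left] at h4

private theorem fin_GA (β : MulAut F) : Group.FG (GA β) := by
  rw [Group.fg_iff]
  refine ⟨Set.range (fun i => iA β (FreeGroup.of i)) ∪ {tA β}, ?_,
    (Set.finite_range _).union (Set.finite_singleton _)⟩
  rw [eq_top_iff]
  intro g _
  obtain ⟨w, n, rfl⟩ := GA_cases β g
  refine mul_mem ?_ (zpow_mem (Subgroup.subset_closure (Set.mem_union_right _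
    (Set.mem_singleton _))) _)
  have h4 : (⊤ : Subgroup F) ≤
      (Subgroup.closure (Set.range (fun i => iA β (FreeGroup.of i)) ∪ {tA β})).comap (iA β) := by
    rw [← FreeGroup.closure_range_of, Subgroup.closure_le]
    rintro _ ⟨i, rfl⟩
    exact Subgroup.subset_closure (Or.inl ⟨i, rfl⟩)
  exact h4 (Subgroup.mem_top w)

theorem p_fin : S_fin := by
  intro β
  refine ⟨fin_GA β, fun G _ N hN he => ?_⟩
  obtain ⟨e⟩ := he
  have := hN
  have := fin_GA β
  exact fin_idx N (Group.fg_of_surjective (f := e.symm.toMonoidHom) e.symm.surjective)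

end Pool.Agent.F8.OV
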