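import Pool.Agent.Lib.MP_305fdd_al.F8.StmO

/-!
[F8o hei] (MP_305fdd_al): the Heisenberg test for inner automorphisms
-/

set_option autoImplicit false

namespace Pool.Agent.F8.OV

open Pool.Agent.MP_305fdd_al Pool.Agent.Lib.MP_305fdd_al Pool.Agent.F2X Pool.Agent.F8
  Pool.Agent.F8.HN

/-- the test homomorphism -/
private noncomputable def hei_f (m : ℕ) : F →* Wm m :=
  FreeGroup.lift ![(⟨1, ma (ZMod m), 0⟩ : Q2 (ZMod m)), ⟨1, 1, ![0, 1]⟩]

private theorem hei_ga (m : ℕ) : hei_f m ga = ⟨1, ma (ZMod m), 0⟩ := by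
  unfold hei_f
  rw [FreeGroup.lift_apply_of]
  rfl

private theorem hei_gb (m : ℕ) : hei_f m gb = ⟨1, 1, ![0, 1]⟩ := by
  unfold hei_f
  rw [FreeGroup.lift_apply_of]
  rfl

/-- the shape of the images -/
private structure hei_P (m : ℕ) (x : Q2 (ZMod m)) (a b : ZMod m) : Prop where
  t : x.t = 1
  m00 : x.m.val 0 0 = 1
  m01 : x.m.val 0 1 = a
  m10 : x.m.val 1 0 = 0
  m11 : x.m.val 1 1 = 1
  v1 : x.v 1 = b

private theorem hei_mul {m : ℕ} {x y : Q2 (ZMod m)} {a b c d : ZMod m} (hx : hei_P m x a b)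
    (hy : hei_P m y c d) : hei_P m (x * y) (a + c) (b + d) := by
  refine ⟨?_, ?_, ?_, ?_, ?_, ?_⟩
  · rw [Q2.mul_t, hx.t, hy.t, one_mul]
  · rw [Q2.mul_m, Matrix.SpecialLinearGroup.coe_mul, Matrix.mul_apply, Fin.sum_univ_two]
    show x.m.val 0 0 * y.m.val 0 0 + x.m.val 0 1 * y.m.val 1 0 = 1
    rw [hx.m00, hy.m00, hy.m10, mul_zero, add_zero, one_mul]
  · rw [Q2.mul_m, Matrix.SpecialLinearGroup.coe_mul, Matrix.mul_apply, Fin.sum_univ_two]
    show x.m.val 0 0 * y.m.val 0 1 + x.m.val 0 1 * y.m.val 1 1 = a + c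
    rw [hx.m00, hy.m01, hx.m01, hy.m11]
    ring
  · rw [Q2.mul_m, Matrix.SpecialLinearGroup.coe_mul, Matrix.mul_apply, Fin.sum_univ_two]
    show x.m.val 1 0 * y.m.val 0 0 + x.m.val 1 1 * y.m.val 1 0 = 0
    rw [hx.m10, hy.m10, zero_mul, mul_zero, add_zero]
  · rw [Q2.mul_m, Matrix.SpecialLinearGroup.coe_mul, Matrix.mul_apply, Fin.sum_univ_two]
    show x.m.val 1 0 * y.m.val 0 1 + x.m.val 1 1 * y.m.val 1 1 = 1
    rw [hx.m10, hx.m11, hy.m11, zero_mul, zero_add, one_mul]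
  · rw [Q2.mul_v, Pi.add_apply, Pi.smul_apply, Matrix.mulVec, dotProduct, Fin.sum_univ_two]
    show x.v 1 + (x.t : ZMod m) • (x.m.val 1 0 * y.v 0 + x.m.val 1 1 * y.v 1) = b + d
    rw [hx.v1, hx.t, hx.m10, hx.m11, hy.v1, Units.val_one, one_smul, zero_mul, zero_add, one_mul]

private theorem hei_inv {m : ℕ} {x : Q2 (ZMod m)} {a b : ZMod m} (hx : hei_P m x a b) :
    hei_P m x⁻¹ (-a) (-b) := by
  have h : x⁻¹.m.val = !![x.m.val 1 1, -(x.m.val 0 1); -(x.m.val 1 0), x.m.val 0 0] := by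
    rw [Q2.inv_m, Matrix.SpecialLinearGroup.coe_inv, Matrix.adjugate_fin_two]
  refine ⟨?_, ?_, ?_, ?_, ?_, ?_⟩
  · rw [Q2.inv_t, hx.t, inv_one]
  · rw [h]; exact hx.m11
  · rw [h]; show -(x.m.val 0 1) = -a; rw [hx.m01]
  · rw [h]; show -(x.m.val 1 0) = 0; rw [hx.m10, neg_zero]
  · rw [h]; exact hx.m00
  · have h1 : (x⁻¹).v 1 = -(((x.t⁻¹ : (ZMod m)ˣ) : ZMod m) *
        ((x⁻¹).m.val 1 0 * x.v 0 + (x⁻¹).m.val 1 1 * x.v 1)) := by
      rw [Q2.inv_v, Pi.neg_apply, Pi.smul_apply, Matrix.mulVec, dotProduct, Fin.sum_univ_two]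
      rfl
    rw [h1, h, hx.t, inv_one, Units.val_one, one_mul]
    show -(-(x.m.val 1 0) * x.v 0 + x.m.val 0 0 * x.v 1) = -b
    rw [hx.m10, hx.m00, hx.v1, neg_zero, zero_mul, zero_add, one_mul]

private theorem hei_vec (m : ℕ) (w : F) :
    hei_P m (hei_f m w) ((vec w 0 : ℤ) : ZMod m) ((vec w 1 : ℤ) : ZMod m) := by
  induction w using FreeGroup.induction_on with
  | C1 =>
    rw [map_one, vec_one]
    refine ⟨rfl, ?_, ?_, ?_, ?_, ?_⟩ <;> simp
  | of i =>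
    fin_cases i
    · show hei_P m (hei_f m ga) ((vec ga 0 : ℤ) : ZMod m) ((vec ga 1 : ℤ) : ZMod m)
      rw [hei_ga, vec_of]
      refine ⟨rfl, ?_, ?_, ?_, ?_, ?_⟩ <;> simp [ma]
    · show hei_P m (hei_f m gb) ((vec gb 0 : ℤ) : ZMod m) ((vec gb 1 : ℤ) : ZMod m)
      rw [hei_gb, vec_of]
      refine ⟨rfl, ?_, ?_, ?_, ?_, ?_⟩ <;> simp
  | inv_of i h =>
    rw [map_inv, vec_inv]
    have := hei_inv h
    simpa using this
  | mul v w hv hw =>
    rw [map_mul, vec_mul]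
    have := hei_mul hv hw
    simpa using this

/-- [F8o hei] -/
theorem p_hei : S_hei := by
  intro m _ w w' h
  have key : ∀ g : F, hei_f m (w⁻¹ * g * w) = hei_f m (w'⁻¹ * g * w') := by
    intro g
    have h1 := congrArg (fun e : Equiv.Perm (F →* Wm m) => e (hei_f m) g) h
    have h2 : ∀ u : F, (pact (Wm m) (MulAut.conj u)) (hei_f m) g = hei_f m (u⁻¹ * g * u) := by
      intro u
      show hei_f m ((MulAut.conj u)⁻¹ g) = _
      rw [← map_inv, MulAut.conj_apply, inv_inv]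
    simpa only [h2] using h1
  have hc : ∀ g : F, hei_f m (w' * w⁻¹) * hei_f m g = hei_f m g * hei_f m (w' * w⁻¹) := by
    intro g
    have h1 : hei_f m (w' * (w⁻¹ * g * w) * w⁻¹) = hei_f m (w' * (w'⁻¹ * g * w') * w⁻¹) := by
      rw [map_mul, map_mul, key g, ← map_mul, ← map_mul]
    have h2 : w' * (w⁻¹ * g * w) * w⁻¹ = w' * w⁻¹ * g := by group
    have h3 : w' * (w'⁻¹ * g * w') * w⁻¹ = g * (w' * w⁻¹) := by group
    rw [h2, h3] at h1
    rw [← map_mul, ← map_mul]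
    exact h1
  have hx := hei_vec m (w' * w⁻¹)
  set x := hei_f m (w' * w⁻¹) with hxdef
  have hA := congrArg (fun y : Q2 (ZMod m) => y.v 0) (hc ga)
  have hB := congrArg (fun y : Q2 (ZMod m) => y.v 0) (hc gb)
  rw [hei_ga] at hA
  rw [hei_gb] at hB
  have hA' : x.v 0 + (x.t : ZMod m) * (x.m.val 0 0 * 0 + x.m.val 0 1 * 0) =
      0 + 1 * (1 * x.v 0 + 1 * x.v 1) := by
    simpa [Q2.mul_v, Matrix.mulVec, dotProduct, Fin.sum_univ_two, ma] using hA
  have hB' : x.v 0 + (x.t : ZMod m) * (x.m.val 0 0 * 0 + x.m.val 0 1 * 1) =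
      0 + 1 * (1 * x.v 0 + 0 * x.v 1) := by
    simpa [Q2.mul_v, Matrix.mulVec, dotProduct, Fin.sum_univ_two] using hB
  rw [hx.v1] at hA' hB'
  rw [hx.t, hx.m01, Units.val_one] at hB'
  have e1 : ((vec (w' * w⁻¹) 1 : ℤ) : ZMod m) = 0 := by linear_combination -hA'
  have e0 : ((vec (w' * w⁻¹) 0 : ℤ) : ZMod m) = 0 := by linear_combination hB'
  rw [vec_mul, vec_inv] at e0 e1
  intro i
  fin_cases i
  · show ((vec w 0 : ℤ) : ZMod m) = ((vec w' 0 : ℤ) : ZMod m)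
    simp only [Pi.add_apply, Pi.neg_apply] at e0
    push_cast at e0
    linear_combination -e0
  · show ((vec w 1 : ℤ) : ZMod m) = ((vec w' 1 : ℤ) : ZMod m)
    simp only [Pi.add_apply, Pi.neg_apply] at e1
    push_cast at e1
    linear_combination -e1

end Pool.Agent.F8.OV
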