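import Pool.Agent.Lib.MP_305fdd_al.F8.StmO

/-!
# MP_305fdd_al: overgroups of `F ⋊ ℤ`: the action of the other group is faithful
-/

set_option autoImplicit false

namespace Pool.Agent.F8.OV

open Pool.Agent.MP_305fdd_al Pool.Agent.Lib.MP_305fdd_al Pool.Agent.F2X Pool.Agent.F8
  Pool.Agent.F8.HN
open scoped QuadraticAlgebra

private theorem inj_ch (M : Matrix (Fin 2) (Fin 2) ℤ) (h : M.det = 1) :
    M * M = M.trace • M - 1 := by
  rw [Matrix.det_fin_two] at h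
  ext i j
  rw [Matrix.sub_apply, Matrix.smul_apply, smul_eq_mul, Matrix.trace_fin_two, Matrix.mul_apply,
    Fin.sum_univ_two, Matrix.one_apply]
  fin_cases i <;> fin_cases j
  · show M 0 0 * M 0 0 + M 0 1 * M 1 0 = (M 0 0 + M 1 1) * M 0 0 - (if (0 : Fin 2) = 0 then 1 else 0)
    rw [if_pos rfl]
    linarith
  · show M 0 0 * M 0 1 + M 0 1 * M 1 1 = (M 0 0 + M 1 1) * M 0 1 - (if (0 : Fin 2) = 1 then 1 else 0)
    rw [if_neg (by decide)]
    linarith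
  · show M 1 0 * M 0 0 + M 1 1 * M 1 0 = (M 0 0 + M 1 1) * M 1 0 - (if (1 : Fin 2) = 0 then 1 else 0)
    rw [if_neg (by decide)]
    linarith
  · show M 1 0 * M 0 1 + M 1 1 * M 1 1 = (M 0 0 + M 1 1) * M 1 1 - (if (1 : Fin 2) = 1 then 1 else 0)
    rw [if_pos rfl]
    linarith

private theorem inj_tr (M : Matrix (Fin 2) (Fin 2) ℤ) (h : M.det = 1) (ht : 2 < M.trace)
    (k : ℕ) : 2 ≤ (M ^ k).trace ∧ (M ^ k).trace + 1 ≤ (M ^ (k + 1)).trace := by
  induction k with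
  | zero =>
    rw [pow_zero, zero_add, pow_one, Matrix.trace_one, Fintype.card_fin]
    constructor
    · norm_num
    · push_cast
      linarith
  | succ k ih =>
    obtain ⟨h1, h2⟩ := ih
    refine ⟨by linarith, ?_⟩
    have h3 : (M ^ (k + 1 + 1)).trace = M.trace * (M ^ (k + 1)).trace - (M ^ k).trace := by
      rw [pow_succ, pow_succ, mul_assoc, inj_ch M h, mul_sub, mul_one, Matrix.trace_sub,
        mul_smul_comm, Matrix.trace_smul, smul_eq_mul, ← pow_succ]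
    rw [h3]
    nlinarith

private theorem inj_hyp (A : GL (Fin 2) ℤ) (h : Hyp A) (n : ℕ) (hn : 0 < n) : Hyp (A ^ n) := by
  obtain ⟨k, rfl⟩ : ∃ k, n = k + 1 := ⟨n - 1, by omega⟩
  obtain ⟨h1, h2⟩ := inj_tr A.val h.1 h.2 k
  constructor
  · rw [Units.val_pow_eq_pow_val, Matrix.det_pow, h.1, one_pow]
  · rw [Units.val_pow_eq_pow_val]
    linarith

theorem p_inj (hlc : S_lc) (hstar : S_star) (hnrm : S_nrm) (hfai : S_fai) : S_inj := by
  intro α n hA hn Γ Λ _ _ Φ Q _ _ π X X' hPr hinj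
  have hpow : AM (α ^ n) = AM α ^ n := map_pow AM α n
  have hB : Hyp (AM (α ^ n)) := by
    rw [hpow]
    exact inj_hyp _ hA n hn
  rw [injective_iff_map_eq_one]
  intro l hl
  obtain ⟨m0, hm0, hst⟩ := hstar (AM α) hA n (Nat.card Q) hn Nat.card_pos
  obtain ⟨-, hst2⟩ := hst m0 hm0 dvd_rfl
  obtain ⟨P, _, _, θ, Z, hZ⟩ := hlc (α ^ n) Γ Λ Φ π.ker (Φ.toFun Q π).ker X X' hPr m0 hm0
  obtain ⟨g, hg1, hg2⟩ := pair_val Φ θ π l
  have h1 := hZ g l hg1
  have h2 : X'.Th l = 1 := by rw [Ov.Th_apply, hl, map_one]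
  rw [h2, map_one, one_mul] at h1
  have h3 : red m0 (X.Th g) = 1 := mul_eq_left.1 h1
  obtain ⟨hci, hr⟩ := hnrm α n hA hn Γ Q π X g
  rw [hpow] at hr
  obtain ⟨j, hj⟩ := hst2 (X.Th g) hci hr 0 (by rw [h3, zpow_zero, map_one])
  rw [← hpow] at hj
  have h4 : g ∈ π.ker := (hfai (α ^ n) hB Γ π.ker X).2.2 hinj g j hj
  have h5 : l ∈ (Φ.toFun Q π).ker := by
    rw [MonoidHom.mem_ker, ← hg2]
    exact h4
  exact (hfai (α ^ n) hB Λ (Φ.toFun Q π).ker X').1 l h5 hl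

end Pool.Agent.F8.OV
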