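import Pool.Agent.Lib.MP_305fdd_al.F8.StmO

/-!
# MP_305fdd_al, overgroups: conjugate matrix groups give isomorphic groups
-/

set_option autoImplicit false

namespace Pool.Agent.F8.OV

open Pool.Agent.MP_305fdd_al Pool.Agent.Lib.MP_305fdd_al Pool.Agent.F2X Pool.Agent.F8
  Pool.Agent.F8.HN

/-- an automorphism is in the image of `c` iff its matrix is in the image of `Th` -/
private theorem iso_mem (hout : Pool.Agent.F2X.S_out) {β : MulAut F} {G : Type} [Group G]
    {N : Subgroup G} (X : Ov β G N) (a : MulAut F) : a ∈ X.c.range ↔ AM a ∈ X.Th.range := by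
  constructor
  · rintro ⟨g, rfl⟩
    exact ⟨g, rfl⟩
  · rintro ⟨g, hg⟩
    have h1 : AM ((X.c g)⁻¹ * a) = 1 := by
      rw [map_mul, map_inv, ← hg, X.Th_apply, inv_mul_cancel]
    obtain ⟨w, hw⟩ := hout _ h1
    refine ⟨g * X.i w, ?_⟩
    rw [map_mul, X.c_i, ← hw, mul_inv_cancel_left]

theorem p_iso (hsur : Pool.Agent.F2X.S_sur) (hout : Pool.Agent.F2X.S_out) : S_iso := by
  intro β Γ Λ _ _ N M X X' hX hX' hY
  obtain ⟨Y, hY⟩ := hY
  obtain ⟨y, rfl⟩ := hsur Y
  have key : X.c.range.map (MulAut.conj y : MulAut (MulAut F)).toMonoidHom = X'.c.range := by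
    ext a
    rw [Subgroup.mem_map]
    constructor
    · rintro ⟨b, hb, rfl⟩
      rw [iso_mem hout X']
      have h1 := (hY (AM b)).1 ((iso_mem hout X b).1 hb)
      rw [← map_inv, ← map_mul, ← map_mul] at h1
      exact h1
    · intro ha
      refine ⟨y⁻¹ * a * y, ?_, ?_⟩
      · rw [iso_mem hout X, hY, map_mul, map_mul, map_inv]
        have h2 : AM y * ((AM y)⁻¹ * AM a * AM y) * (AM y)⁻¹ = AM a := by group
        rw [h2]
        exact (iso_mem hout X' a).1 ha
      · show y * (y⁻¹ * a * y) * y⁻¹ = a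
        group
  exact ⟨(MonoidHom.ofInjective hX').trans
    ((MulEquiv.subgroupCongr key.symm).trans
      (((MulAut.conj y : MulAut (MulAut F)).subgroupMap X.c.range).symm.trans
        (MonoidHom.ofInjective hX).symm))⟩

end Pool.Agent.F8.OV
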