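import Pool.Agent.Lib.MP_305fdd_al.F8.StmO

/-!
# MP_305fdd_al, overgroups of the figure-eight family, [F8o lc]: local conjugacy
-/

set_option autoImplicit false

namespace Pool.Agent.F8.OV

open Pool.Agent.MP_305fdd_al Pool.Agent.Lib.MP_305fdd_al Pool.Agent.F2X Pool.Agent.F8
  Pool.Agent.F8.HN
open scoped QuadraticAlgebra

/-- the reduction of a vector modulo `m` -/
private def lc_v (m : ℕ) (x : Fin 2 → ℤ) : Fin 2 → ZMod m := fun i => (x i : ZMod m)

private theorem lc_v_zero (m : ℕ) : lc_v m 0 = 0 := by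
  ext i
  simp [lc_v]

private theorem lc_v_add (m : ℕ) (x y : Fin 2 → ℤ) : lc_v m (x + y) = lc_v m x + lc_v m y := by
  ext i
  simp [lc_v]

private theorem lc_v_surj (m : ℕ) [NeZero m] (x : Fin 2 → ZMod m) : ∃ w, lc_v m (vec w) = x := by
  obtain ⟨w, hw⟩ := vec_surj (fun i => ((x i).val : ℤ))
  refine ⟨w, ?_⟩
  rw [hw]
  ext i
  simp [lc_v]

private theorem lc_red_val (m : ℕ) (A : GL (Fin 2) ℤ) (x : Fin 2 → ℤ) :
    lc_v m (A.val.mulVec x) = (red m A).val.mulVec (lc_v m x) := by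
  ext i
  simp [lc_v, red, Matrix.mulVec, dotProduct]

/-- a homomorphism to `(ℤ/m)²` is given by a matrix -/
private theorem lc_hom (m : ℕ) (V : F → Fin 2 → ZMod m) (hV : ∀ x y, V (x * y) = V x + V y) :
    ∃ Y : Matrix (Fin 2) (Fin 2) (ZMod m), ∀ w, V w = Y.mulVec (lc_v m (vec w)) := by
  refine ⟨Matrix.of fun i j => V (FreeGroup.of j) i, ?_⟩
  set Y : Matrix (Fin 2) (Fin 2) (ZMod m) := Matrix.of fun i j => V (FreeGroup.of j) i with hY
  have hV1 : V 1 = 0 := by
    have h := hV 1 1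
    rw [mul_one] at h
    exact left_eq_add.1 h
  let g' : F →* Multiplicative (Fin 2 → ZMod m) :=
    { toFun := fun w => Multiplicative.ofAdd (V w)
      map_one' := by
        rw [hV1]
        rfl
      map_mul' := fun x y => by
        rw [hV, ofAdd_add] }
  let k : F →* Multiplicative (Fin 2 → ZMod m) :=
    { toFun := fun w => Multiplicative.ofAdd (Y.mulVec (lc_v m (vec w)))
      map_one' := by
        rw [vec_one, lc_v_zero, Matrix.mulVec_zero]
        rfl
      map_mul' := fun x y => by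
        rw [vec_mul, lc_v_add, Matrix.mulVec_add, ofAdd_add] }
  have hk : g' = k := by
    ext j
    show V (FreeGroup.of j) _ = (Y.mulVec (lc_v m (vec (FreeGroup.of j)))) _
    rw [vec_of]
    have : lc_v m (Pi.single j 1) = Pi.single j 1 := by
      ext i
      simp [lc_v, Pi.single_apply]
    rw [this, Matrix.mulVec_single_one]
    rfl
  intro w
  have h := DFunLike.congr_fun hk w
  exact h

private theorem lc_finite (m : ℕ) [NeZero m] : Finite (F →* Wm m) := by
  have h : Function.Injective (fun (f : F →* Wm m) (i : Fin 2) => f (FreeGroup.of i)) := by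
    intro f g hfg
    ext1 i
    exact congrFun hfg i
  exact Finite.of_injective _ h

theorem p_lc (hhei : S_hei) : S_lc := by
  intro β Γ Λ _ _ Φ N M X X' hPr m hm
  have : NeZero m := ⟨hm.ne'⟩
  have := lc_finite m
  set P : Type := Equiv.Perm (F →* Wm m) with hP
  set θ : Γ →* P := (pact (Wm m)).comp X.c with hθ
  set θ' : Λ →* P := Φ.toFun P θ with hθ'
  have hθi : ∀ w, θ (X.i w) = pact (Wm m) (MulAut.conj w) := by
    intro w
    rw [hθ, MonoidHom.comp_apply, X.c_i]
  have hwell : ∀ w w₁ : F, θ (X.i w) = θ (X.i w₁) → lc_v m (vec w) = lc_v m (vec w₁) := by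
    intro w w₁ h
    rw [hθi, hθi] at h
    ext i
    exact hhei m w w₁ h i
  have hch := hPr.f2 P θ
  choose ch hch using hch
  have hch' : ∀ w' : F, θ' (X'.i w') = θ (X.i (ch w')) := hch
  have hV : ∀ w' w : F, θ' (X'.i w') = θ (X.i w) → lc_v m (vec (ch w')) = lc_v m (vec w) := by
    intro w' w h
    apply hwell
    rw [← hch', h]
  obtain ⟨Y, hY⟩ := lc_hom m (fun w' => lc_v m (vec (ch w'))) (by
    intro x y
    show lc_v m (vec (ch (x * y))) = _
    rw [hV (x * y) (ch x * ch y) (by rw [map_mul, map_mul, map_mul, map_mul, hch', hch']),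
      vec_mul, lc_v_add])
  have hYs : Function.Surjective Y.mulVec := by
    intro x
    obtain ⟨w, hw⟩ := lc_v_surj m x
    obtain ⟨w', hw'⟩ := hPr.f1 P θ w
    refine ⟨lc_v m (vec w'), ?_⟩
    rw [← hY, hV w' w hw', hw]
  rw [Matrix.mulVec_surjective_iff_isUnit] at hYs
  obtain ⟨X₀, hX₀⟩ := hYs
  refine ⟨P, inferInstance, inferInstance, θ, X₀⁻¹, ?_⟩
  intro g l hgl
  have key : X₀ * red m (X'.Th l) = red m (X.Th g) * X₀ := by
    apply Units.ext
    rw [Units.val_mul, Units.val_mul, hX₀]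
    apply Matrix.ext_of_mulVec_single
    intro j
    have hj : (Pi.single j 1 : Fin 2 → ZMod m) = lc_v m (vec (FreeGroup.of j)) := by
      rw [vec_of]
      ext i
      simp [lc_v, Pi.single_apply]
    rw [hj, ← Matrix.mulVec_mulVec, ← Matrix.mulVec_mulVec, ← lc_red_val, Ov.Th_apply,
      ← AM_vec, ← hY, ← hY, Ov.Th_apply]
    show lc_v m (vec (ch (X'.c l (FreeGroup.of j)))) =
      (red m (AM (X.c g))).val.mulVec (lc_v m (vec (ch (FreeGroup.of j))))
    rw [← lc_red_val, ← AM_vec]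
    apply hV
    rw [Ov.i_c, Ov.i_c, map_mul, map_mul, map_mul, map_mul, map_inv, map_inv, hch']
    have h1 : θ g = θ' l := hgl
    rw [h1]
  calc X₀⁻¹ * red m (X.Th g) = X₀⁻¹ * (red m (X.Th g) * X₀) * X₀⁻¹ := by group
    _ = X₀⁻¹ * (X₀ * red m (X'.Th l)) * X₀⁻¹ := by rw [key]
    _ = red m (X'.Th l) * X₀⁻¹ := by group

end Pool.Agent.F8.OV
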