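import Pool.Agent.Lib.MP_305fdd_al.F8.StmO

/-!
# MP_305fdd_al, piece [F8o lo]: the local-global principle for `AM phi`
-/

set_option autoImplicit false

namespace Pool.Agent.F8.OV

open Pool.Agent.MP_305fdd_al Pool.Agent.Lib.MP_305fdd_al Pool.Agent.F2X Pool.Agent.F8
  Pool.Agent.F8.HN
open scoped QuadraticAlgebra

private theorem lo_val : (AM phi).val = !![3, 1; -1, 0] := by
  rw [AM_val, amat_eq]
  show !![vec (phi ga) 0, vec (phi gb) 0; vec (phi ga) 1, vec (phi gb) 1] = _
  rw [phi_ga, phi_gb]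
  simp only [vec_mul, vec_inv, vec_of]
  ext i j
  fin_cases i <;> fin_cases j <;> simp

/-- the square root of `AM phi` -/
private def lo_C : GL (Fin 2) ℤ where
  val := !![2, 1; -1, -1]
  inv := !![1, 1; -1, -2]
  val_inv := by
    ext i j
    fin_cases i <;> fin_cases j <;> simp [Matrix.mul_apply, Fin.sum_univ_two]
  inv_val := by
    ext i j
    fin_cases i <;> fin_cases j <;> simp [Matrix.mul_apply, Fin.sum_univ_two]

private theorem lo_CC : lo_C * lo_C = AM phi := by
  apply Units.ext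
  rw [Units.val_mul, lo_val]
  show !![2, 1; -1, -1] * !![2, 1; -1, -1] = _
  ext i j
  fin_cases i <;> fin_cases j <;> simp [Matrix.mul_apply, Fin.sum_univ_two]

private theorem lo_A1 : (AM phi).val = lo_C.val + 1 := by
  rw [lo_val]
  show _ = !![2, 1; -1, -1] + 1
  ext i j
  fin_cases i <;> fin_cases j <;> simp

private theorem lo_Ai : ((AM phi)⁻¹).val = 1 - (lo_C⁻¹).val + 1 - 1 + (1 - lo_C.val + (lo_C⁻¹).val) := by
  have h : (AM phi).val * !![0, -1; 1, 3] = 1 := by
    rw [lo_val]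
    ext i j
    fin_cases i <;> fin_cases j <;> simp [Matrix.mul_apply, Fin.sum_univ_two]
  have h2 : ((AM phi)⁻¹).val = !![0, -1; 1, 3] := by
    calc ((AM phi)⁻¹).val = ((AM phi)⁻¹).val * ((AM phi).val * !![0, -1; 1, 3]) := by
          rw [h, mul_one]
      _ = !![0, -1; 1, 3] := by rw [← mul_assoc, ← Units.val_mul, inv_mul_cancel, Units.val_one,
        one_mul]
  rw [h2]
  show _ = 1 - !![1, 1; -1, -2] + 1 - 1 + (1 - !![2, 1; -1, -1] + !![1, 1; -1, -2])
  ext i j
  fin_cases i <;> fin_cases j <;> simp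

/-- an element which inverts `AM phi` maps the square root to minus its inverse -/
private theorem lo_conj (s : GL (Fin 2) ℤ) (hs : s * AM phi * s⁻¹ = (AM phi)⁻¹) :
    s * lo_C * s⁻¹ = -lo_C⁻¹ := by
  apply Units.ext
  have h1 := congrArg Units.val hs
  rw [Units.val_mul, Units.val_mul, lo_A1, lo_Ai, mul_add, add_mul, mul_one, ← Units.val_mul s s⁻¹,
    mul_inv_cancel, Units.val_one] at h1
  rw [Units.val_mul, Units.val_mul, Units.val_neg]
  have h2 : -(lo_C⁻¹).val = 1 - lo_C.val := by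
    show -!![1, 1; -1, -2] = 1 - !![2, 1; -1, -1]
    ext i j
    fin_cases i <;> fin_cases j <;> simp
  rw [h2]
  have h3 : s.val * lo_C.val * (s⁻¹).val = s.val * lo_C.val * (s⁻¹).val + 1 - 1 := by abel
  rw [h3, h1]
  abel

/-- the row vector `(1, -1)` modulo `5` -/
private def lo_l : Fin 2 → ZMod 5 := ![1, -1]

private theorem lo_h5 : (5 : ZMod 5) = 0 := by decide

private theorem lo_h2 : (2 : ZMod 5) ≠ 0 := by decide

private theorem lo_h1 : ((1 : ℤ) : ZMod 5) ≠ ((-1 : ℤ) : ZMod 5) := by decide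

private theorem lo_hne : ∀ c : ZMod 5, c ≠ 0 → c • lo_l ≠ -(c • lo_l) := by decide

private theorem lo_comm (X : GL (Fin 2) (ZMod 5)) (h : X * red 5 (AM phi) = red 5 (AM phi) * X) :
    Matrix.vecMul lo_l X.val = (X.val 1 1 - X.val 0 1) • lo_l ∧
    X.val.det = (X.val 1 1 - X.val 0 1) ^ 2 := by
  have h1 := congrArg Units.val h
  have hr : (red 5 (AM phi)).val = !![3, 1; -1, 0] := by
    show (AM phi).val.map (Int.castRingHom (ZMod 5)) = _
    rw [lo_val]
    ext i j
    fin_cases i <;> fin_cases j <;> simp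
  rw [Units.val_mul, Units.val_mul, hr] at h1
  have e01 := congrFun (congrFun h1 0) 1
  have e11 := congrFun (congrFun h1 1) 1
  simp only [Matrix.mul_apply, Fin.sum_univ_two, Matrix.of_apply, Matrix.cons_val', Matrix.cons_val_zero,
    Matrix.cons_val_one, Matrix.cons_val_fin_one] at e01 e11
  have h00 : X.val 0 0 = 3 * X.val 0 1 + X.val 1 1 := by linear_combination e01
  have h10 : X.val 1 0 = -X.val 0 1 := by linear_combination e11
  have h5 : (5 : ZMod 5) = 0 := by decide
  constructor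
  · ext i
    fin_cases i
    · simp only [lo_l, Matrix.vecMul, dotProduct, Fin.sum_univ_two, Pi.smul_apply, smul_eq_mul,
        Matrix.cons_val_zero, Matrix.cons_val_one, Fin.zero_eta, Fin.isValue]
      rw [h00, h10]
      linear_combination X.val 0 1 * h5
    · simp only [lo_l, Matrix.vecMul, dotProduct, Fin.sum_univ_two, Pi.smul_apply, smul_eq_mul,
        Matrix.cons_val_zero, Matrix.cons_val_one, Fin.mk_one, Fin.isValue]
      ring
  · rw [Matrix.det_fin_two, h00, h10]
    linear_combination X.val 0 1 * X.val 1 1 * h5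

/-- `A ^ j` acts on the row vector by `(-1) ^ j` -/
private theorem lo_pow (j : ℤ) : (Even j → Matrix.vecMul lo_l (red 5 (AM phi ^ j)).val = lo_l) ∧
    (¬ Even j → Matrix.vecMul lo_l (red 5 (AM phi ^ j)).val = -lo_l) := by
  have hr : (red 5 (AM phi)).val = !![3, 1; -1, 0] := by
    show (AM phi).val.map (Int.castRingHom (ZMod 5)) = _
    rw [lo_val]
    ext i j
    fin_cases i <;> fin_cases j <;> simp
  have hA : Matrix.vecMul lo_l (red 5 (AM phi)).val = -lo_l := by
    rw [hr]
    decide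
  have hAi : Matrix.vecMul lo_l ((red 5 (AM phi))⁻¹).val = -lo_l := by
    have h1 : Matrix.vecMul (Matrix.vecMul lo_l (red 5 (AM phi)).val) ((red 5 (AM phi))⁻¹).val =
        lo_l := by
      rw [Matrix.vecMul_vecMul, ← Units.val_mul, mul_inv_cancel, Units.val_one, Matrix.vecMul_one]
    rw [hA, Matrix.neg_vecMul] at h1
    exact neg_eq_iff_eq_neg.1 h1
  induction j using Int.induction_on with
  | zero =>
    refine ⟨fun _ => ?_, fun h => absurd (Even.zero) h⟩
    rw [zpow_zero, map_one, Units.val_one, Matrix.vecMul_one]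
  | succ i ih =>
    rw [zpow_add, zpow_one, map_mul, Units.val_mul, ← Matrix.vecMul_vecMul]
    constructor
    · intro h
      rw [ih.2 (by rw [Int.even_add_one] at h; exact h), Matrix.neg_vecMul, hA, neg_neg]
    · intro h
      rw [ih.1 (by rw [Int.even_add_one, not_not] at h; exact h), hA]
  | pred i ih =>
    rw [zpow_sub, zpow_one, map_mul, map_inv, Units.val_mul, ← Matrix.vecMul_vecMul]
    constructor
    · intro h
      rw [ih.2 (by rw [Int.even_sub_one] at h; exact h), Matrix.neg_vecMul, hAi, neg_neg]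
    · intro h
      rw [ih.1 (by rw [Int.even_sub_one, not_not] at h; exact h), hAi]

theorem p_lo (hun : S_un) : S_lo := by
  refine ⟨5, by norm_num, ?_⟩
  rintro s s' hs hs' ⟨X, hXA, hX⟩
  obtain ⟨hXl, hXd⟩ := lo_comm X hXA
  have : Fact (Nat.Prime 5) := ⟨by norm_num⟩
  -- the eigenvalue of `X` is not zero
  have hc0 : X.val 1 1 - X.val 0 1 ≠ 0 := by
    intro h
    have h1 : X.val.det = 0 := by rw [hXd, h]; ring
    have h2 : IsUnit X.val.det := (Matrix.isUnit_iff_isUnit_det _).1 X.isUnit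
    rw [h1] at h2
    exact not_isUnit_zero h2
  -- determinants
  have hdet1 : ∀ g : GL (Fin 2) ℤ, g.val.det = 1 ∨ g.val.det = -1 := fun g =>
    Int.isUnit_iff.1 ((Matrix.isUnit_iff_isUnit_det _).1 g.isUnit)
  have hreddet : ∀ g : GL (Fin 2) ℤ, (red 5 g).val.det = ((g.val.det : ℤ) : ZMod 5) := by
    intro g
    show (g.val.map (Int.castRingHom (ZMod 5))).det = _
    rw [← RingHom.mapMatrix_apply, ← RingHom.map_det]
    rfl
  have hdd : s'.val.det = s.val.det := by
    have h1 := congrArg (fun g : GL (Fin 2) (ZMod 5) => g.val.det) hX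
    simp only [Units.val_mul, Matrix.det_mul, hreddet] at h1
    rw [mul_comm] at h1
    have h2 : X.val.det ≠ 0 := by rw [hXd]; exact pow_ne_zero 2 hc0
    have h3 : ((s.val.det : ℤ) : ZMod 5) = ((s'.val.det : ℤ) : ZMod 5) := mul_right_cancel₀ h2 h1
    rcases hdet1 s with h4 | h4 <;> rcases hdet1 s' with h5 | h5 <;> rw [h4, h5] at h3 ⊢
    · exact absurd h3 lo_h1
    · exact absurd h3.symm lo_h1
  -- `u = s' s⁻¹`
  obtain ⟨u, hu⟩ : ∃ u, u = s' * s⁻¹ := ⟨_, rfl⟩
  have hsi : s⁻¹ * AM phi * s = (AM phi)⁻¹ := by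
    have h1 : s⁻¹ * (AM phi)⁻¹ * s = AM phi := by
      rw [← hs]; group
    calc s⁻¹ * AM phi * s = (s⁻¹ * (AM phi)⁻¹ * s)⁻¹ := by group
      _ = (AM phi)⁻¹ := by rw [h1]
  have hsi' : s' * (AM phi)⁻¹ * s'⁻¹ = AM phi := by
    calc s' * (AM phi)⁻¹ * s'⁻¹ = (s' * AM phi * s'⁻¹)⁻¹ := by group
      _ = AM phi := by rw [hs', inv_inv]
  have huA : u * AM phi = AM phi * u := by
    have h1 : u * AM phi * u⁻¹ = AM phi := by
      calc u * AM phi * u⁻¹ = s' * (s⁻¹ * AM phi * s) * s'⁻¹ := by rw [hu]; group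
        _ = AM phi := by rw [hsi, hsi']
    calc u * AM phi = u * AM phi * u⁻¹ * u := by group
      _ = AM phi * u := by rw [h1]
  have hudet : u.val.det = 1 := by
    have h1 : (u * s).val.det = s'.val.det := by rw [hu]; congr 2; group
    rw [Units.val_mul, Matrix.det_mul, hdd] at h1
    rcases hdet1 s with h | h <;> rw [h] at h1 <;> linarith
  have hus : s' = u * s := by rw [hu]; group
  -- the eigenvalue of `s X s⁻¹`
  obtain ⟨Xb, hXb⟩ : ∃ Xb, Xb = red 5 s * X * (red 5 s)⁻¹ := ⟨_, rfl⟩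
  have hXbA : Xb * red 5 (AM phi) = red 5 (AM phi) * Xb := by
    have h1 : red 5 s * red 5 (AM phi) * (red 5 s)⁻¹ = (red 5 (AM phi))⁻¹ := by
      rw [← map_mul, ← map_inv, ← map_mul, hs, map_inv]
    have h2 : (red 5 s)⁻¹ * red 5 (AM phi) * red 5 s = (red 5 (AM phi))⁻¹ := by
      rw [← map_inv, ← map_mul, ← map_mul, hsi, map_inv]
    have h4 : X * (red 5 (AM phi))⁻¹ = (red 5 (AM phi))⁻¹ * X := by
      calc X * (red 5 (AM phi))⁻¹ = (red 5 (AM phi))⁻¹ * (red 5 (AM phi) * X) * (red 5 (AM phi))⁻¹ := by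
            group
        _ = (red 5 (AM phi))⁻¹ * X := by rw [← hXA]; group
    have h5 : red 5 s * (red 5 (AM phi))⁻¹ * (red 5 s)⁻¹ = red 5 (AM phi) := by
      calc red 5 s * (red 5 (AM phi))⁻¹ * (red 5 s)⁻¹ =
          (red 5 s * red 5 (AM phi) * (red 5 s)⁻¹)⁻¹ := by group
        _ = red 5 (AM phi) := by rw [h1, inv_inv]
    calc Xb * red 5 (AM phi) = red 5 s * X * ((red 5 s)⁻¹ * red 5 (AM phi) * red 5 s) *
          (red 5 s)⁻¹ := by rw [hXb]; group
      _ = red 5 s * (X * (red 5 (AM phi))⁻¹) * (red 5 s)⁻¹ := by rw [h2]; group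
      _ = (red 5 s * (red 5 (AM phi))⁻¹ * (red 5 s)⁻¹) * (red 5 s * X * (red 5 s)⁻¹) := by
          rw [h4]; group
      _ = red 5 (AM phi) * Xb := by rw [h5, hXb]
  obtain ⟨hXbl, -⟩ := lo_comm Xb hXbA
  -- the entries of `Xb`: trace and determinant argument through the relation `s X = Xb s`
  have hXu : X = red 5 u * Xb := by
    have h1 : X * red 5 s = red 5 u * red 5 s * X := by rw [hX, hus, map_mul]
    calc X = X * red 5 s * (red 5 s)⁻¹ := by group
      _ = red 5 u * Xb := by rw [h1, hXb]; group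
  -- `X` and `Xb` have the same eigenvalue
  have heig : Xb.val 1 1 - Xb.val 0 1 = X.val 1 1 - X.val 0 1 := by
    have htr : Xb.val.trace = X.val.trace := by
      rw [hXb, Units.val_mul, Matrix.trace_mul_comm, ← Units.val_mul, ← mul_assoc, inv_mul_cancel,
        one_mul]
    have key : ∀ Y : GL (Fin 2) (ZMod 5), Y * red 5 (AM phi) = red 5 (AM phi) * Y →
        Y.val.trace = 2 * (Y.val 1 1 - Y.val 0 1) := by
      intro Y hY
      have h1 := congrArg Units.val hY
      have hr : (red 5 (AM phi)).val = !![3, 1; -1, 0] := by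
        show (AM phi).val.map (Int.castRingHom (ZMod 5)) = _
        rw [lo_val]
        ext i j
        fin_cases i <;> fin_cases j <;> simp
      rw [Units.val_mul, Units.val_mul, hr] at h1
      have e01 := congrFun (congrFun h1 0) 1
      simp only [Matrix.mul_apply, Fin.sum_univ_two, Matrix.of_apply, Matrix.cons_val', Matrix.cons_val_zero,
        Matrix.cons_val_one, Matrix.cons_val_fin_one] at e01
      have h00 : Y.val 0 0 = 3 * Y.val 0 1 + Y.val 1 1 := by linear_combination e01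
      rw [Matrix.trace_fin_two, h00]
      linear_combination Y.val 0 1 * lo_h5
    rw [key Xb hXbA, key X hXA] at htr
    exact mul_left_cancel₀ lo_h2 htr
  have hne : ∀ c : ZMod 5, c ≠ 0 → c • lo_l ≠ -(c • lo_l) := lo_hne
  have hXX := hXl
  rw [hXu, Units.val_mul, ← Matrix.vecMul_vecMul] at hXX
  rw [← Units.val_mul, ← hXu] at hXX
  rw [heig] at hXbl
  have hneg : ∀ g : GL (Fin 2) ℤ, (red 5 (-g)).val = -(red 5 g).val := by
    intro g
    show (-g).val.map (Int.castRingHom (ZMod 5)) = -(g.val.map (Int.castRingHom (ZMod 5)))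
    rw [Units.val_neg]
    ext i j
    simp
  have hCA : ∀ j : ℤ, lo_C ^ j * AM phi = AM phi * lo_C ^ j := by
    intro j
    rw [← lo_CC]
    exact ((Commute.refl lo_C).mul_right (Commute.refl lo_C)).zpow_left j
  have hCC : ∀ j : ℤ, lo_C ^ j * lo_C ^ j = AM phi ^ j := by
    intro j
    rw [← lo_CC, (Commute.refl lo_C).mul_zpow]
  have hcj : ∀ j : ℤ, lo_C ^ j * s = lo_C ^ j * (-lo_C⁻¹) ^ (-j) * s * lo_C ^ j := by
    intro j
    have h1 : (s * lo_C * s⁻¹) ^ (-j) = (-lo_C⁻¹) ^ (-j) := by rw [lo_conj s hs]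
    rw [← h1, conj_zpow]
    group
  obtain ⟨j, hj⟩ := hun u huA hudet
  refine ⟨lo_C ^ j, hCA j, ?_⟩
  by_cases hev : Even j
  · have hpow := (lo_pow j).1 hev
    rcases hj with hj | hj
    · rw [hcj j, Even.neg_zpow hev.neg, inv_zpow, zpow_neg, inv_inv, hCC, hus, hj]
    · exfalso
      rw [hj, hneg, Matrix.vecMul_neg, hpow, Matrix.neg_vecMul, hXbl] at hXX
      exact hne _ hc0 hXX.symm
  · have hpow := (lo_pow j).2 hev
    have hodd : Odd (-j) := by
      rw [Int.not_even_iff_odd] at hev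
      exact hev.neg
    rcases hj with hj | hj
    · exfalso
      rw [hj, hpow, Matrix.neg_vecMul, hXbl] at hXX
      exact hne _ hc0 hXX.symm
    · rw [hcj j, Odd.neg_zpow hodd, inv_zpow, zpow_neg, inv_inv, mul_neg, hCC, hus, hj]

end Pool.Agent.F8.OV
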