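import Pool.Agent.Lib.MP_305fdd_al.F8.StmO

/-!
# MP_305fdd_al: locally conjugate virtually cyclic groups of matrices are conjugate
-/

set_option autoImplicit false

namespace Pool.Agent.F8.OV

open Pool.Agent.MP_305fdd_al Pool.Agent.Lib.MP_305fdd_al Pool.Agent.F2X Pool.Agent.F8
  Pool.Agent.F8.HN

private theorem mx_comm {G : Type} [Group G] {a g : G} (h : g * a = a * g) : g * a * g⁻¹ = a := by
  rw [h, mul_inv_cancel_right]

private theorem mx_comm' {G : Type} [Group G] {a g : G} (h : g * a * g⁻¹ = a) : g * a = a * g := by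
  rw [mul_inv_eq_iff_eq_mul] at h
  exact h

theorem p_mx (hcom : S_com) (hstar : S_star) (hcm : S_cm) (hpw : S_pw) : S_mx := by
  intro A hA hLo n r hn hr H H' hAH hAH' hCI hCI' hpow hpow' hloc
  have hq : A.val 0 1 ≠ 0 := (hpw A hA).2.2.1
  have hcc := (hcm A hq).2.1
  have hinv := (hcm A hq).2.2 hA
  obtain ⟨m₀, hm₀, hst⟩ := hstar A hA n r hn hr
  obtain ⟨m₁, hm₁, hlo⟩ := hLo
  obtain ⟨m, hdvd, hm, hc⟩ := hcom A hA n (m₀ * m₁) hn (Nat.mul_pos hm₀ hm₁)
  obtain ⟨X, hX, hX1, hX2⟩ := hloc m hm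
  have hZ := hc X hX
  obtain ⟨hne, hs⟩ := hst (m₀ * m₁) (Nat.mul_pos hm₀ hm₁) (Dvd.intro _ rfl)
  have hcorr : ∀ h h' : GL (Fin 2) ℤ, X * red m h = red m h' * X →
      redm hdvd X * red (m₀ * m₁) h = red (m₀ * m₁) h' * redm hdvd X := by
    intro h h' e
    have := congrArg (redm hdvd) e
    rwa [map_mul, map_mul, redm_red, redm_red] at this
  generalize redm hdvd X = Z at hZ hcorr
  have key : ∀ h h' : GL (Fin 2) ℤ, red (m₀ * m₁) h = red (m₀ * m₁) h' → h * A * h⁻¹ = A →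
      h' * A * h'⁻¹ ≠ A⁻¹ := by
    intro h h' e h1 h2
    apply hne
    have e1 := congrArg (red (m₀ * m₁)) h1
    have e2 := congrArg (red (m₀ * m₁)) h2
    rw [map_mul, map_mul, map_inv] at e1 e2
    rw [← e2, ← e, e1]
  -- (0)
  have z1 : ∀ h h' : GL (Fin 2) ℤ, h * A = A * h → CI A h' →
      Z * red (m₀ * m₁) h = red (m₀ * m₁) h' * Z →
      red (m₀ * m₁) h = red (m₀ * m₁) h' ∧ h' * A = A * h' := by
    intro h h' h1 h2 h3
    have e : red (m₀ * m₁) h = red (m₀ * m₁) h' := by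
      rw [hZ h h1] at h3
      exact mul_right_cancel h3
    refine ⟨e, ?_⟩
    rcases h2 with h2 | h2
    · exact mx_comm' h2
    · exact absurd h2 (key h h' e (mx_comm h1))
  have z2 : ∀ h h' : GL (Fin 2) ℤ, h' * A = A * h' → CI A h →
      Z * red (m₀ * m₁) h = red (m₀ * m₁) h' * Z →
      red (m₀ * m₁) h = red (m₀ * m₁) h' ∧ h * A = A * h := by
    intro h h' h1 h2 h3
    have e : red (m₀ * m₁) h = red (m₀ * m₁) h' := by
      rw [← hZ h' h1] at h3
      exact mul_left_cancel h3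
    refine ⟨e, ?_⟩
    rcases h2 with h2 | h2
    · exact mx_comm' h2
    · exact absurd h2 (key h' h e.symm (mx_comm h1))
  -- elements congruent modulo m'
  have hcl : ∀ (h h' : GL (Fin 2) ℤ), h * A = A * h → h' * A = A * h' →
      (∃ j : ℤ, h ^ r = (A ^ n) ^ j) → (∃ j : ℤ, h' ^ r = (A ^ n) ^ j) →
      red (m₀ * m₁) h = red (m₀ * m₁) h' → ∃ j : ℤ, h = h' * (A ^ n) ^ j := by
    rintro h h' h1 h2 ⟨j, h3⟩ ⟨j', h4⟩ e
    have hg : h'⁻¹ * h * A = A * (h'⁻¹ * h) := by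
      have c1 : Commute h A := h1
      have c2 : Commute h'⁻¹ A := (show Commute h' A from h2).inv_left
      exact c2.mul_left c1
    obtain ⟨k, hk⟩ := hs (h'⁻¹ * h) (Or.inl (mx_comm hg)) ⟨j - j', by
      have c : Commute h'⁻¹ h := (show Commute h' h from hcc h' h h2 h1).inv_left
      rw [c.mul_pow, inv_pow, h4, h3, ← zpow_neg, ← zpow_add, neg_add_eq_sub]⟩ 0 (by
      rw [zpow_zero, map_one, map_mul, map_inv, e, inv_mul_cancel])
    exact ⟨k, by rw [← hk]; group⟩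
  have ha : ∀ h : GL (Fin 2) ℤ, h * A = A * h → (h ∈ H ↔ h ∈ H') := by
    intro h h1
    constructor
    · intro hh
      obtain ⟨h', hh', e⟩ := hX1 h hh
      obtain ⟨e1, e2⟩ := z1 h h' h1 (hCI' h' hh') (hcorr h h' e)
      obtain ⟨j, hj⟩ := hcl h h' h1 e2 (hpow h hh) (hpow' h' hh') e1
      rw [hj]
      exact H'.mul_mem hh' (H'.zpow_mem hAH' j)
    · intro hh
      obtain ⟨h', hh', e⟩ := hX2 h hh
      obtain ⟨e1, e2⟩ := z2 h' h h1 (hCI h' hh') (hcorr h' h e)
      obtain ⟨j, hj⟩ := hcl h h' h1 e2 (hpow' h hh) (hpow h' hh') e1.symm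
      rw [hj]
      exact H.mul_mem hh' (H.zpow_mem hAH j)
  by_cases hsx : ∃ s ∈ H, s * A * s⁻¹ = A⁻¹
  · obtain ⟨s, hsH, hsA⟩ := hsx
    obtain ⟨s', hsH', e⟩ := hX1 s hsH
    have hsA' : s' * A * s'⁻¹ = A⁻¹ := by
      rcases hCI' s' hsH' with h | h
      · exfalso
        obtain ⟨-, e2⟩ := z2 s s' (mx_comm' h) (hCI s hsH) (hcorr s s' e)
        exact hinv (hsA.symm.trans (mx_comm e2))
      · exact h
    have hd1 : m₁ ∣ m₀ * m₁ := Dvd.intro_left _ rfl
    obtain ⟨Y, hY1, hY2⟩ := hlo s s' hsA hsA' ⟨redm hd1 Z, by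
      have := congrArg (redm hd1) (hZ A rfl)
      rwa [map_mul, map_mul, redm_red] at this, by
      have := congrArg (redm hd1) (hcorr s s' e)
      rwa [map_mul, map_mul, redm_red, redm_red] at this⟩
    refine ⟨Y, fun h => ?_⟩
    by_cases h1 : h * A * h⁻¹ = A
    · have e1 : Y * h * Y⁻¹ = h := mx_comm (hcc Y h hY1 (mx_comm' h1))
      rw [e1]
      exact ha h (mx_comm' h1)
    by_cases h2 : h * A * h⁻¹ = A⁻¹
    · have hs1 : s⁻¹ * A * s = A⁻¹ := by
        have : A = s * A⁻¹ * s⁻¹ := by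
          have h3 := congrArg (fun x => x⁻¹) hsA
          simp only [mul_inv_rev, inv_inv] at h3
          rw [mul_assoc]; exact h3.symm
        calc s⁻¹ * A * s = s⁻¹ * (s * A⁻¹ * s⁻¹) * s := by rw [← this]
          _ = A⁻¹ := by group
      have hc1 : h * s⁻¹ * A * (h * s⁻¹)⁻¹ = A := by
        calc h * s⁻¹ * A * (h * s⁻¹)⁻¹ = h * (s⁻¹ * A * s) * h⁻¹ := by group
          _ = h * A⁻¹ * h⁻¹ := by rw [hs1]
          _ = (h * A * h⁻¹)⁻¹ := by group
          _ = A := by rw [h2, inv_inv]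
      have hc2 := mx_comm' hc1
      have e1 : Y * h * Y⁻¹ = h * s⁻¹ * s' := by
        have c1 : Y * (h * s⁻¹) = h * s⁻¹ * Y := hcc Y _ hY1 hc2
        calc Y * h * Y⁻¹ = Y * (h * s⁻¹) * s * Y⁻¹ := by group
          _ = h * s⁻¹ * (Y * s) * Y⁻¹ := by rw [c1]; group
          _ = h * s⁻¹ * s' := by rw [hY2]; group
      rw [e1]
      constructor
      · intro hh
        exact H'.mul_mem ((ha _ hc2).1 (H.mul_mem hh (H.inv_mem hsH))) hsH'
      · intro hh
        have h3 : h * s⁻¹ ∈ H' := by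
          have := H'.mul_mem hh (H'.inv_mem hsH')
          rwa [mul_inv_cancel_right] at this
        have h4 := H.mul_mem ((ha _ hc2).2 h3) hsH
        rwa [inv_mul_cancel_right] at h4
    · constructor
      · intro hh
        rcases hCI h hh with h3 | h3
        · exact absurd h3 h1
        · exact absurd h3 h2
      · intro hh
        exfalso
        have hYA : Y⁻¹ * A * Y = A := by
          rw [mul_assoc, ← hY1]; group
        have hYA' : Y⁻¹ * A⁻¹ * Y = A⁻¹ := by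
          have := congrArg (fun x => x⁻¹) hYA
          simp only [mul_inv_rev, inv_inv] at this
          rw [mul_assoc]; exact this
        have e1 : Y * h * Y⁻¹ * A * (Y * h * Y⁻¹)⁻¹ = Y * (h * A * h⁻¹) * Y⁻¹ := by
          calc Y * h * Y⁻¹ * A * (Y * h * Y⁻¹)⁻¹ = Y * h * (Y⁻¹ * A * Y) * h⁻¹ * Y⁻¹ := by group
            _ = Y * (h * A * h⁻¹) * Y⁻¹ := by rw [hYA]; group
        rcases hCI' _ hh with h3 | h3
        · apply h1
          rw [e1] at h3
          calc h * A * h⁻¹ = Y⁻¹ * (Y * (h * A * h⁻¹) * Y⁻¹) * Y := by group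
            _ = A := by rw [h3, hYA]
        · apply h2
          rw [e1] at h3
          calc h * A * h⁻¹ = Y⁻¹ * (Y * (h * A * h⁻¹) * Y⁻¹) * Y := by group
            _ = A⁻¹ := by rw [h3, hYA']
  · have hH : ∀ h ∈ H, h * A = A * h := by
      intro h hh
      rcases hCI h hh with h3 | h3
      · exact mx_comm' h3
      · exact absurd ⟨h, hh, h3⟩ hsx
    have hH' : ∀ h' ∈ H', h' * A = A * h' := by
      intro h' hh'
      obtain ⟨h, hh, e⟩ := hX2 h' hh'
      exact (z1 h h' (hH h hh) (hCI' h' hh') (hcorr h h' e)).2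
    refine ⟨1, fun h => ?_⟩
    rw [one_mul, inv_one, mul_one]
    exact ⟨fun hh => (ha h (hH h hh)).1 hh, fun hh => (ha h (hH' h hh)).2 hh⟩

end Pool.Agent.F8.OV
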