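import Pool.Agent.Lib.MP_305fdd_al.F8.StmO

/-!
# MP_305fdd_al: groups which contain `F ⋊ ℤ` as a normal subgroup of finite index, proof of `S_nrm`
-/

set_option autoImplicit false

namespace Pool.Agent.F8.OV

open Pool.Agent.MP_305fdd_al Pool.Agent.Lib.MP_305fdd_al Pool.Agent.F2X Pool.Agent.F8
  Pool.Agent.F8.HN
open scoped QuadraticAlgebra

/-- the inverse of a matrix of determinant one -/
private theorem nrm_inv (M : GL (Fin 2) ℤ) (h : M.val.det = 1) :
    (M⁻¹).val = M.val.trace • 1 - M.val := by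
  have h1 : M.val * (M.val.trace • 1 - M.val) = 1 := by
    rw [Matrix.det_fin_two] at h
    ext i j
    rw [Matrix.mul_apply, Fin.sum_univ_two, Matrix.sub_apply, Matrix.sub_apply,
      Matrix.smul_apply, Matrix.smul_apply, Matrix.trace_fin_two, smul_eq_mul, smul_eq_mul]
    revert i j
    rw [Fin.forall_fin_two, Fin.forall_fin_two, Fin.forall_fin_two]
    refine ⟨⟨?_, ?_⟩, ?_, ?_⟩ <;> simp <;> linarith
  have h2 : (M⁻¹).val * M.val = 1 := by
    rw [← Units.val_mul, inv_mul_cancel, Units.val_one]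
  calc (M⁻¹).val = (M⁻¹).val * (M.val * (M.val.trace • 1 - M.val)) := by rw [h1, mul_one]
    _ = M.val.trace • 1 - M.val := by rw [← mul_assoc, h2, one_mul]

/-- cancellation of a nonzero integer -/
private theorem nrm_cancel (u : ℤ) (hu : u ≠ 0) (M N : Matrix (Fin 2) (Fin 2) ℤ)
    (h : u • M = u • N) : M = N := by
  ext i j
  have h1 := congrFun (congrFun h i) j
  rw [Matrix.smul_apply, Matrix.smul_apply, smul_eq_mul, smul_eq_mul] at h1
  exact mul_left_cancel₀ hu h1

/-- the matrices of the elements of `G` -/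
theorem p_nrm (hpw : S_pw) (_hb1 : S_b1) : S_nrm := by
  intro α n hα hn G Q _ _ _ π X g
  have hβ : AM (α ^ n) = AM α ^ n := map_pow AM α n
  obtain ⟨hval, hhyp, -, -, -⟩ := hpw (AM α) hα
  have hB := hhyp n hn
  obtain ⟨-, -, hB01, -, hBk⟩ := hpw (AM α ^ n) hB
  refine ⟨?_, ?_⟩
  · -- the two exponents
    have hk : ∀ g : G, ∃ k : ℤ, X.Th g * AM α ^ n * (X.Th g)⁻¹ = (AM α ^ n) ^ k := by
      intro g
      have hmem : g * X.t * g⁻¹ ∈ π.ker := (MonoidHom.normal_ker π).conj_mem _ X.t_mem g
      obtain ⟨k, hk⟩ := X.Th_mem _ hmem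
      refine ⟨k, ?_⟩
      rw [map_mul, map_mul, map_inv, X.Th_t, hβ] at hk
      exact hk
    obtain ⟨k, hk1⟩ := hk g
    obtain ⟨l, hl1⟩ := hk g⁻¹
    rw [map_inv, inv_inv] at hl1
    have hkl : (AM α ^ n) ^ (k * l - 1) = 1 := by
      have h1 : AM α ^ n = (AM α ^ n) ^ (k * l) := by
        calc AM α ^ n = X.Th g * ((X.Th g)⁻¹ * AM α ^ n * X.Th g) * (X.Th g)⁻¹ := by group
          _ = X.Th g * (AM α ^ n) ^ l * (X.Th g)⁻¹ := by rw [hl1]
          _ = (X.Th g * AM α ^ n * (X.Th g)⁻¹) ^ l := conj_zpow.symm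
          _ = (AM α ^ n) ^ (k * l) := by rw [hk1, ← zpow_mul]
      rw [zpow_sub_one, ← h1, mul_inv_cancel]
    have hkl1 : k * l = 1 := by have := hBk _ hkl; omega
    have hkk := Int.eq_one_or_neg_one_of_mul_eq_one hkl1
    -- the entries
    obtain ⟨n', rfl⟩ : ∃ n', n = n' + 1 := ⟨n - 1, by omega⟩
    have hv := hval n'
    obtain ⟨u, hu⟩ : ∃ u, u = cs (AM α).val.trace (n' + 1) := ⟨_, rfl⟩
    obtain ⟨v, hv'⟩ : ∃ v, v = cs (AM α).val.trace n' := ⟨_, rfl⟩
    rw [← hu, ← hv'] at hv
    have hu0 : u ≠ 0 := by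
      rintro rfl
      apply hB01
      rw [hv, Matrix.sub_apply, Matrix.smul_apply, Matrix.smul_apply]
      simp
    have htr : (AM α ^ (n' + 1)).val.trace = u * (AM α).val.trace - 2 * v := by
      rw [hv, Matrix.trace_sub, Matrix.trace_smul, Matrix.trace_smul, Matrix.trace_one,
        Fintype.card_fin, smul_eq_mul, smul_eq_mul]
      push_cast
      ring
    rcases hkk with rfl | rfl
    · left
      rw [zpow_one, mul_inv_eq_iff_eq_mul] at hk1
      rw [mul_inv_eq_iff_eq_mul]
      apply Units.ext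
      have h2 := congrArg Units.val hk1
      rw [Units.val_mul, Units.val_mul, hv] at h2
      rw [Units.val_mul, Units.val_mul]
      apply nrm_cancel u hu0
      have h3 : (X.Th g).val * (u • (AM α).val - v • 1) =
          u • ((X.Th g).val * (AM α).val) - v • (X.Th g).val := by
        rw [mul_sub, mul_smul_comm, mul_smul_comm, mul_one]
      have h4 : (u • (AM α).val - v • 1) * (X.Th g).val =
          u • ((AM α).val * (X.Th g).val) - v • (X.Th g).val := by
        rw [sub_mul, smul_mul_assoc, smul_mul_assoc, one_mul]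
      rw [h3, h4] at h2
      exact sub_left_injective h2
    · right
      rw [zpow_neg, zpow_one, mul_inv_eq_iff_eq_mul] at hk1
      rw [mul_inv_eq_iff_eq_mul]
      apply Units.ext
      have h2 := congrArg Units.val hk1
      rw [Units.val_mul, Units.val_mul, nrm_inv _ hB.1, htr, hv] at h2
      rw [Units.val_mul, Units.val_mul, nrm_inv _ hα.1]
      apply nrm_cancel u hu0
      have h3 : (X.Th g).val * (u • (AM α).val - v • 1) =
          u • ((X.Th g).val * (AM α).val) - v • (X.Th g).val := by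
        rw [mul_sub, mul_smul_comm, mul_smul_comm, mul_one]
      have h4 : ((u * (AM α).val.trace - 2 * v) • (1 : Matrix (Fin 2) (Fin 2) ℤ) -
          (u • (AM α).val - v • 1)) * (X.Th g).val =
          u • (((AM α).val.trace • 1 - (AM α).val) * (X.Th g).val) - v • (X.Th g).val := by
        have h5 : (u * (AM α).val.trace - 2 * v) • (1 : Matrix (Fin 2) (Fin 2) ℤ) -
            (u • (AM α).val - v • 1) = u • ((AM α).val.trace • 1 - (AM α).val) - v • 1 := by
          rw [smul_sub, sub_smul, mul_smul, mul_smul, two_smul]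
          abel
        rw [h5, sub_mul, smul_mul_assoc, smul_mul_assoc, one_mul]
      rw [h3, h4] at h2
      exact sub_left_injective h2
  · have hmem : g ^ Nat.card Q ∈ π.ker := by
      rw [MonoidHom.mem_ker, map_pow, pow_card_eq_one']
    obtain ⟨j, hj⟩ := X.Th_mem _ hmem
    exact ⟨j, by rw [← map_pow, hj]⟩

end Pool.Agent.F8.OV
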