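import Pool.Agent.Lib.MP_305fdd_al.F8.StmO

/-!
# [F8o pr] the correspondence of `F` and of `t` in finite quotients
-/

set_option autoImplicit false

namespace Pool.Agent.F8.OV

open Pool.Agent.MP_305fdd_al Pool.Agent.Lib.MP_305fdd_al Pool.Agent.F2X Pool.Agent.F8
  Pool.Agent.F8.HN

section

variable {β : MulAut F} {G : Type} [Group G] {N : Subgroup G} (X : Ov β G N)

private theorem pr_mem_i (l : N) (h : nA β (X.e l) = 1) : ∃ w, (l : G) = X.i w := by
  obtain ⟨w, hw⟩ := GA_ker β (X.e l) h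
  refine ⟨w, ?_⟩
  have h1 : l = X.e.symm (iA β w) := by rw [← hw, MulEquiv.symm_apply_apply]
  exact congrArg (fun y : N => (y : G)) h1

private theorem pr_mem_t (l : N) (k : ℤ) (h : nA β (X.e l) = Multiplicative.ofAdd k) :
    ∃ w, (l : G) = X.i w * X.t ^ k := by
  obtain ⟨w, n, hw⟩ := GA_cases β (X.e l)
  have hn : n = k := by
    rw [hw, map_mul, nA_iA, one_mul, map_zpow, nA_tA] at h
    have h2 := congrArg Multiplicative.toAdd h
    rw [toAdd_zpow, toAdd_ofAdd, toAdd_ofAdd] at h2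
    simpa using h2
  subst hn
  refine ⟨w, ?_⟩
  have h1 : l = X.e.symm (iA β w * tA β ^ n) := by rw [← hw, MulEquiv.symm_apply_apply]
  have h2 := congrArg (fun y : N => (y : G)) h1
  simp only [map_mul, map_zpow, Subgroup.coe_mul, Subgroup.coe_zpow] at h2
  exact h2

end

/-- a homomorphism to `ℤ` which kills the kernel of a surjective one -/
private theorem pr_factor {L : Type} [Group L] (n f : L →* Multiplicative ℤ)
    (hker : n.ker ≤ f.ker) (l₁ : L) (hl₁ : n l₁ = Multiplicative.ofAdd 1) (l : L) :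
    f l = (f l₁) ^ (Multiplicative.toAdd (n l)) := by
  have h1 : l * (l₁ ^ (Multiplicative.toAdd (n l)))⁻¹ ∈ n.ker := by
    rw [MonoidHom.mem_ker, map_mul, map_inv, map_zpow, hl₁, ← ofAdd_zsmul, smul_eq_mul, mul_one,
      ofAdd_toAdd, mul_inv_cancel]
  have h2 := MonoidHom.mem_ker.1 (hker h1)
  rw [map_mul, map_inv, map_zpow, mul_inv_eq_one] at h2
  exact h2

/-- [F8o pr] the correspondence of `F` and of `t`. -/
theorem p_pr (hb1 : S_b1) : S_pr := by
  intro β hβ hreg Γ Λ _ _ Φ Q _ _ π X X' hfg hrf hsf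
  obtain ⟨Ψ₀, hΨ₀⟩ := natBij_ker Φ (rfl : Φ.toFun Q π = Φ.toFun Q π)
  let Ψ : NatBij (GA β) (Φ.toFun Q π).ker := natBij_equiv X.e.symm Ψ₀
  obtain ⟨nL, hsurj, hcm, hker⟩ := hreg _ hfg hrf hsf Ψ
  have hθ : ∀ (P : Type) [Group P] [Finite P] (θ : Γ →* P),
      Ψ.toFun P ((θ.comp π.ker.subtype).comp X.e.symm.toMonoidHom) =
        (Φ.toFun P θ).comp (Φ.toFun Q π).ker.subtype := by
    intro P _ _ θ
    rw [← hΨ₀]
    show Ψ₀.toFun P (((θ.comp π.ker.subtype).comp X.e.symm.toMonoidHom).comp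
      X.e.symm.symm.toMonoidHom) = _
    congr 1
    ext x
    show θ ((X.e.symm (X.e x) : π.ker) : Γ) = θ (x : Γ)
    rw [MulEquiv.symm_apply_apply]
  refine ⟨?_, ?_, ?_⟩
  · intro P _ _ θ w
    obtain ⟨l, hl1, hl2⟩ := cmpG Ψ hsurj hcm
      ((θ.comp π.ker.subtype).comp X.e.symm.toMonoidHom) (iA β w)
    rw [nA_iA] at hl1
    obtain ⟨w', hw'⟩ := pr_mem_i X' l
      (MonoidHom.mem_ker.1 (hker ((nA β).comp X'.e.toMonoidHom) (MonoidHom.mem_ker.2 hl1)))
    refine ⟨w', ?_⟩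
    rw [hθ] at hl2
    rw [← hw']
    exact hl2
  · intro P _ _ θ w'
    have hl : nL ⟨X'.i w', X'.i_mem w'⟩ = 1 := hb1 β hβ (nL.comp X'.e.symm.toMonoidHom) w'
    obtain ⟨g, hg1, hg2⟩ := cmpG Ψ.symm (nA_surjective β) hcm.symm
      (Ψ.toFun P ((θ.comp π.ker.subtype).comp X.e.symm.toMonoidHom)) ⟨X'.i w', X'.i_mem w'⟩
    have h0 : Ψ.symm.toFun P (Ψ.toFun P ((θ.comp π.ker.subtype).comp X.e.symm.toMonoidHom)) =
        (θ.comp π.ker.subtype).comp X.e.symm.toMonoidHom := Ψ.left_inv P _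
    rw [h0, hθ] at hg2
    rw [hl] at hg1
    obtain ⟨w, hw⟩ := GA_ker β g hg1
    refine ⟨w, ?_⟩
    rw [hw] at hg2
    exact hg2.symm
  · obtain ⟨l₁, hl₁⟩ := hsurj (Multiplicative.ofAdd 1)
    have hf := pr_factor nL ((nA β).comp X'.e.toMonoidHom) (hker _) l₁ hl₁
    have hk : Multiplicative.toAdd ((nA β) (X'.e l₁)) = 1 ∨
        Multiplicative.toAdd ((nA β) (X'.e l₁)) = -1 := by
      obtain ⟨g, hg⟩ := nA_surjective β (Multiplicative.ofAdd 1)
      have h1 := hf (X'.e.symm g)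
      have h2 : ((nA β).comp X'.e.toMonoidHom) (X'.e.symm g) = Multiplicative.ofAdd 1 := by
        show nA β (X'.e (X'.e.symm g)) = _
        rw [MulEquiv.apply_symm_apply, hg]
      rw [h2] at h1
      have h3 := congrArg Multiplicative.toAdd h1
      rw [toAdd_ofAdd, toAdd_zpow, smul_eq_mul, mul_comm] at h3
      exact Int.eq_one_or_neg_one_of_mul_eq_one h3.symm
    refine ⟨Multiplicative.toAdd ((nA β) (X'.e l₁)), hk, ?_⟩
    intro P _ _ θ
    obtain ⟨l, hl1, hl2⟩ := cmpG Ψ hsurj hcm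
      ((θ.comp π.ker.subtype).comp X.e.symm.toMonoidHom) (tA β)
    rw [nA_tA] at hl1
    have h1 := hf l
    rw [hl1, toAdd_ofAdd, zpow_one] at h1
    obtain ⟨w', hw'⟩ := pr_mem_t X' l (Multiplicative.toAdd ((nA β) (X'.e l₁))) (by
      rw [ofAdd_toAdd]
      exact h1)
    refine ⟨w', ?_⟩
    rw [hθ] at hl2
    rw [← hw']
    exact hl2

end Pool.Agent.F8.OV
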