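import Pool.Agent.Lib.MP_305fdd_al.F8.StmO

/-!
# MP_305fdd_al: powers of hyperbolic matrices
-/

set_option autoImplicit false

namespace Pool.Agent.F8.OV

open Pool.Agent.MP_305fdd_al Pool.Agent.Lib.MP_305fdd_al Pool.Agent.F2X Pool.Agent.F8
  Pool.Agent.F8.HN
open scoped QuadraticAlgebra

private theorem pw_ch (M : Matrix (Fin 2) (Fin 2) ℤ) (h : M.det = 1) :
    M * M = M.trace • M - 1 := by
  rw [Matrix.det_fin_two] at h
  ext i j
  rw [Matrix.sub_apply, Matrix.smul_apply, smul_eq_mul, Matrix.mul_apply, Fin.sum_univ_two,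
    Matrix.trace_fin_two, Matrix.one_apply]
  fin_cases i <;> fin_cases j <;> simp <;> linarith

private theorem pw_1 (A : GL (Fin 2) ℤ) (h : Hyp A) (k : ℕ) :
    (A ^ (k + 1)).val = cs A.val.trace (k + 1) • A.val - cs A.val.trace k • 1 := by
  induction k with
  | zero =>
    show (A ^ (0 + 1)).val = (1 : ℤ) • A.val - (0 : ℤ) • 1
    simp
  | succ k ih =>
    have e : cs A.val.trace (k + 1 + 1) = A.val.trace * cs A.val.trace (k + 1) - cs A.val.trace k := rfl
    rw [pow_succ, Units.val_mul, ih, e, sub_mul, smul_mul_assoc, smul_mul_assoc, one_mul,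
      pw_ch _ h.1, smul_sub, smul_smul, sub_smul, mul_comm (cs A.val.trace (k + 1))]
    abel

private theorem pw_off (a b : ℤ) (h : a * b = 1) (ht : 2 < a + b) : False := by
  rcases Int.eq_one_or_neg_one_of_mul_eq_one' h with ⟨h1, h2⟩ | ⟨h1, h2⟩ <;> rw [h1, h2] at ht <;>
    norm_num at ht

theorem p_pw (hcs : S_cs) : S_pw := by
  intro A hA
  obtain ⟨h1, -, h3, -, -⟩ := hcs A.val.trace hA.2
  have hdet := hA.1
  have htr := hA.2
  have n01 : A.val 0 1 ≠ 0 := by
    intro h
    rw [Matrix.det_fin_two, h, zero_mul, sub_zero] at hdet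
    rw [Matrix.trace_fin_two] at htr
    exact pw_off _ _ hdet htr
  have n10 : A.val 1 0 ≠ 0 := by
    intro h
    rw [Matrix.det_fin_two, h, mul_zero, sub_zero] at hdet
    rw [Matrix.trace_fin_two] at htr
    exact pw_off _ _ hdet htr
  have hpos : ∀ k : ℕ, A ^ (k + 1) ≠ 1 := by
    intro k hk
    have h := pw_1 A hA k
    rw [hk] at h
    have h' := congrFun (congrFun h 0) 1
    rw [Matrix.sub_apply, Matrix.smul_apply, Matrix.smul_apply, Units.val_one, Matrix.one_apply,
      if_neg (by decide), smul_zero, sub_zero, smul_eq_mul] at h'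
    rcases mul_eq_zero.1 h'.symm with h' | h'
    · exact absurd h' (h3 (k + 1) (Nat.succ_pos k)).ne'
    · exact n01 h'
  refine ⟨pw_1 A hA, ?_, n01, n10, ?_⟩
  · intro n hn
    obtain ⟨k, rfl⟩ : ∃ k, n = k + 1 := ⟨n - 1, by omega⟩
    refine ⟨?_, ?_⟩
    · rw [Units.val_pow_eq_pow_val, Matrix.det_pow, hA.1, one_pow]
    · rw [pw_1 A hA k, Matrix.trace_sub, Matrix.trace_smul, Matrix.trace_smul, Matrix.trace_one]
      have e1 := h1 k
      have e2 := h3 (k + 1) (Nat.succ_pos k)
      simp only [smul_eq_mul, Fintype.card_fin, Nat.cast_ofNat]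
      nlinarith [e1, e2, htr]
  · intro k hk
    obtain ⟨n, rfl | rfl⟩ := Int.eq_nat_or_neg k
    · rcases n with _ | n
      · rfl
      · exfalso
        rw [zpow_natCast] at hk
        exact hpos n hk
    · rcases n with _ | n
      · rfl
      · exfalso
        rw [zpow_neg, zpow_natCast, inv_eq_one] at hk
        exact hpos n hk

end Pool.Agent.F8.OV
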