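import Pool.Agent.Lib.MP_305fdd_al.F8.StmO

/-!
# MP_305fdd_al, piece [F8o star]: elements congruent to a power of `A ^ n`
-/

set_option autoImplicit false

namespace Pool.Agent.F8.OV

open Pool.Agent.MP_305fdd_al Pool.Agent.Lib.MP_305fdd_al Pool.Agent.F2X Pool.Agent.F8
  Pool.Agent.F8.HN
open scoped QuadraticAlgebra

private theorem star_red_apply (m : ℕ) (g : GL (Fin 2) ℤ) (i j : Fin 2) :
    (red m g).val i j = ((g.val i j : ℤ) : ZMod m) := rfl

private theorem star_redm {m' m : ℕ} (h : m' ∣ m) (g : GL (Fin 2) ℤ) (hg : red m g = 1) :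
    red m' g = 1 := by
  rw [← redm_red h, hg, map_one]

private theorem star_neg (m : ℕ) (h : red m (-1) = 1) : ((-1 : ℤ) : ZMod m) = ((1 : ℤ) : ZMod m) := by
  have h1 := congrArg (fun g : GL (Fin 2) (ZMod m) => g.val 0 0) h
  have h2 : (red m (-1)).val 0 0 = ((-1 : ℤ) : ZMod m) := by
    rw [star_red_apply, Units.val_neg, Units.val_one]
    simp
  have h3 : (1 : GL (Fin 2) (ZMod m)).val 0 0 = ((1 : ℤ) : ZMod m) := by simp
  rw [← h2, ← h3]
  exact h1

theorem p_star (hcs : S_cs) (hpw : S_pw) (hcm : S_cm) (htor : S_tor) : S_star := by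
  intro A hA n r hn hr
  obtain ⟨-, hpow, hA01, -, -⟩ := hpw A hA
  obtain ⟨B, hBd⟩ : ∃ B, B = A ^ n := ⟨_, rfl⟩
  have hB : Hyp B := by rw [hBd]; exact hpow n hn
  obtain ⟨hB1, -, hB01, -, -⟩ := hpw B hB
  obtain ⟨-, -, hcs3, -, hcs5⟩ := hcs _ hB.2
  obtain ⟨q, hq⟩ : ∃ q : ℕ, q = (B.val 0 1).natAbs := ⟨_, rfl⟩
  have hq0 : 0 < q := by rw [hq]; exact Int.natAbs_pos.2 hB01
  -- the order modulo 3
  obtain ⟨e, he0, he⟩ : ∃ e : ℕ, 0 < e ∧ red 3 (B ^ e) = 1 := by
    have hfin : Finite (GL (Fin 2) (ZMod 3)) := inferInstance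
    refine ⟨Nat.card (GL (Fin 2) (ZMod 3)), Nat.card_pos, ?_⟩
    rw [map_pow]
    exact pow_card_eq_one'
  obtain ⟨c, hc⟩ : ∃ c : ℕ, (c : ℤ) = cs B.val.trace (2 * r * e) :=
    ⟨(cs B.val.trace (2 * r * e)).toNat, Int.toNat_of_nonneg (hcs3 _ (by positivity)).le⟩
  have hc0 : 0 < c := by
    have := hcs3 (2 * r * e) (by positivity)
    rw [← hc] at this
    exact_mod_cast this
  have hT : A.val.trace * A.val 0 1 ≠ 0 := mul_ne_zero (by have := hA.2; omega) hA01
  refine ⟨3 * q * c * ((A.val.trace * A.val 0 1).natAbs + 1), by positivity, ?_⟩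
  intro m hm hdvd
  have hle : (A.val.trace * A.val 0 1).natAbs < m := by
    have h1 : (A.val.trace * A.val 0 1).natAbs + 1 ∣ m := dvd_trans ⟨3 * q * c, by ring⟩ hdvd
    have := Nat.le_of_dvd hm h1
    omega
  -- (1)
  have hne : red m A ≠ red m A⁻¹ := by
    intro h
    have h1 : red m (A * A) = 1 := by
      rw [map_mul]
      nth_rw 2 [h]
      rw [map_inv, mul_inv_cancel]
    have h2 := congrArg (fun g : GL (Fin 2) (ZMod m) => g.val 0 1) h1
    have h3 : ((A.val.trace * A.val 0 1 : ℤ) : ZMod m) = 0 := by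
      have h4 : (A * A).val 0 1 = A.val.trace * A.val 0 1 := by
        rw [Units.val_mul, Matrix.mul_apply, Fin.sum_univ_two, Matrix.trace_fin_two]
        ring
      rw [← h4, ← star_red_apply]
      refine h2.trans ?_
      simp
    rw [ZMod.intCast_zmod_eq_zero_iff_dvd] at h3
    have h5 := Int.natAbs_dvd_natAbs.2 h3
    rw [Int.natAbs_natCast] at h5
    have h6 := Nat.le_of_dvd (Int.natAbs_pos.2 hT) h5
    omega
  refine ⟨hne, ?_⟩
  rintro g hCI ⟨j, hj⟩ k hk
  rw [← hBd] at hj hk ⊢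
  have hBA : ∀ i : ℤ, B ^ i * A = A * B ^ i := by
    intro i
    rw [hBd]
    exact ((Commute.refl A).pow_left n).zpow_left i
  -- `g` commutes with `A`
  have hgA : g * A = A * g := by
    rcases hCI with h | h
    · calc g * A = g * A * g⁻¹ * g := by group
        _ = A * g := by rw [h]
    · exfalso
      apply hne
      have h1 : red m (g * A * g⁻¹) = red m A := by
        rw [map_mul, map_mul, map_inv, hk, ← map_mul, hBA k, map_mul, mul_assoc, mul_inv_cancel,
          mul_one]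
      rw [← h1, h]
  have hgB : ∀ i : ℤ, Commute g (B ^ i) := by
    intro i
    have h1 : Commute g B := by
      rw [hBd]
      exact Commute.pow_right hgA n
    exact h1.zpow_right i
  obtain ⟨g1, hg1⟩ : ∃ g1, g1 = g * B ^ (-k) := ⟨_, rfl⟩
  have hred1 : red m g1 = 1 := by
    rw [hg1, map_mul, hk, ← map_mul, ← zpow_add, add_neg_cancel, zpow_zero, map_one]
  have hg1r : g1 ^ r = B ^ (j - k * r) := by
    rw [hg1, (hgB (-k)).mul_pow, hj, ← zpow_natCast (B ^ (-k)) r, ← zpow_mul, ← zpow_add]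
    congr 1
    ring
  obtain ⟨i, hi⟩ : ∃ i : ℤ, i = j - k * r := ⟨_, rfl⟩
  rw [← hi] at hg1r
  have hBi : red m (B ^ i) = 1 := by rw [← hg1r, map_pow, hred1, one_pow]
  have hBi' : red m (B ^ i.natAbs) = 1 := by
    rcases Int.natAbs_eq i with h | h
    · rw [h, zpow_natCast] at hBi
      exact hBi
    · rw [h, zpow_neg, zpow_natCast, map_inv, inv_eq_one] at hBi
      exact hBi
  have hJ : 2 * r * e ∣ i.natAbs := by
    apply hcs5 (2 * r * e) i.natAbs (by positivity)
    rcases Nat.eq_zero_or_pos i.natAbs with h0 | h0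
    · rw [h0]
      exact dvd_zero _
    · obtain ⟨a, ha⟩ : ∃ a, i.natAbs = a + 1 := ⟨i.natAbs - 1, by omega⟩
      rw [ha] at hBi' ⊢
      have h1 := congrArg (fun g : GL (Fin 2) (ZMod m) => g.val 0 1) hBi'
      have h2 : ((cs B.val.trace (a + 1) * B.val 0 1 : ℤ) : ZMod m) = 0 := by
        have h3 : (B ^ (a + 1)).val 0 1 = cs B.val.trace (a + 1) * B.val 0 1 := by
          rw [hB1 a, Matrix.sub_apply, Matrix.smul_apply, Matrix.smul_apply,
            Matrix.one_apply_ne (by decide), smul_zero, sub_zero, smul_eq_mul]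
        rw [← h3, ← star_red_apply]
        refine h1.trans ?_
        simp
      rw [ZMod.intCast_zmod_eq_zero_iff_dvd] at h2
      have h3 : ((c * q : ℕ) : ℤ) ∣ cs B.val.trace (a + 1) * B.val 0 1 := by
        refine dvd_trans ?_ h2
        exact_mod_cast dvd_trans
          ⟨3 * ((A.val.trace * A.val 0 1).natAbs + 1), by ring⟩ hdvd
      have h4 : (c : ℤ) * B.val 0 1 ∣ cs B.val.trace (a + 1) * B.val 0 1 := by
        refine dvd_trans ?_ h3
        push_cast
        apply mul_dvd_mul_left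
        rw [hq]
        exact Int.dvd_natAbs.2 dvd_rfl
      rw [← hc]
      exact Int.dvd_of_mul_dvd_mul_right hB01 h4
  obtain ⟨i1, hi1⟩ : ∃ i1 : ℤ, i = (2 * r * e : ℕ) * i1 := Int.natCast_dvd.2 hJ
  obtain ⟨i', hi'⟩ : ∃ i' : ℤ, i' = 2 * e * i1 := ⟨_, rfl⟩
  have hii : i = i' * r := by rw [hi1, hi']; push_cast; ring
  obtain ⟨g2, hg2⟩ : ∃ g2, g2 = g1 * B ^ (-i') := ⟨_, rfl⟩
  have hg1B : ∀ a : ℤ, Commute g1 (B ^ a) := by
    intro a
    rw [hg1]
    exact (hgB a).mul_left (Commute.zpow_zpow_self B (-k) a)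
  have hg2r : g2 ^ r = 1 := by
    rw [hg2, (hg1B (-i')).mul_pow, hg1r, ← zpow_natCast (B ^ (-i')) r, ← zpow_mul, ← zpow_add, hii]
    have : i' * (r : ℤ) + -i' * (r : ℤ) = 0 := by ring
    rw [this, zpow_zero]
  have hg2A : g2 * A = A * g2 := by
    have h1 : Commute g A := hgA
    have h2 : Commute (B ^ (-k)) A := hBA (-k)
    have h3 : Commute (B ^ (-i')) A := hBA (-i')
    rw [hg2, hg1]
    exact (h1.mul_left h2).mul_left h3
  have hg12 : g1 = g2 * B ^ i' := by
    rw [hg2, mul_assoc, ← zpow_add, neg_add_cancel, zpow_zero, mul_one]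
  have hgg : g = g1 * B ^ k := by
    rw [hg1, mul_assoc, ← zpow_add, neg_add_cancel, zpow_zero, mul_one]
  rcases htor A hA g2 hg2A r hr hg2r with h | h
  · refine ⟨i' + k, ?_⟩
    rw [hgg, hg12, h, one_mul, ← zpow_add]
  · exfalso
    have h3m : 3 ∣ m := dvd_trans ⟨q * c * ((A.val.trace * A.val 0 1).natAbs + 1), by ring⟩ hdvd
    have h1 : red 3 g1 = 1 := star_redm h3m g1 hred1
    have h2 : red 3 (B ^ i') = 1 := by
      have h4 : B ^ i' = (B ^ e) ^ (2 * i1) := by
        rw [hi', ← zpow_natCast B e, ← zpow_mul]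
        congr 1
        ring
      rw [h4, map_zpow, he, one_zpow]
    rw [hg12, h, map_mul, h2, mul_one] at h1
    have h5 := star_neg 3 h1
    revert h5
    decide

end Pool.Agent.F8.OV
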