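import Pool.Agent.Lib.MP_305fdd_al.F8.StmO

/-!
# MP_305fdd_al: torsion elements commuting with a hyperbolic matrix
-/

set_option autoImplicit false

namespace Pool.Agent.F8.OV

open Pool.Agent.MP_305fdd_al Pool.Agent.Lib.MP_305fdd_al Pool.Agent.F2X Pool.Agent.F8
  Pool.Agent.F8.HN

private theorem tor_sq (T k : ℤ) (hT : 2 < T) (h : k * k = T * T - 4) : False := by
  have h1 : |k| * |k| = T * T - 4 := by rw [abs_mul_abs_self]; exact h
  have h0 : 0 ≤ |k| := abs_nonneg k
  generalize |k| = m at h1 h0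
  have h2 : m < T := by nlinarith
  have h3 : T - 1 ≤ m := by
    by_contra hc
    push Not at hc
    nlinarith
  have h4 : m = T - 1 := by omega
  subst h4
  have h5 : 2 * T = 5 := by nlinarith
  omega

theorem p_tor (hfo : Pool.Agent.F2X.S_fo) (hcm : S_cm) (hpw : S_pw) : S_tor := by
  intro A hA g hg r hr hgr
  have hq : A.val 0 1 ≠ 0 := (hpw A hA).2.2.1
  have hrel := (hcm A hq).1 g hg
  have e10 := congrFun (congrFun hrel 1) 0
  have e11 := congrFun (congrFun hrel 1) 1
  simp only [Matrix.smul_apply, Matrix.add_apply, smul_eq_mul, Matrix.one_apply] at e10 e11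
  norm_num at e10 e11
  obtain ⟨hdA, htA⟩ := hA
  rw [Matrix.det_fin_two] at hdA
  rw [Matrix.trace_fin_two] at htA
  have hpow : g.val ^ r = 1 := by
    rw [← Units.val_pow_eq_pow_val, hgr]; rfl
  obtain ⟨f1, f2, f3⟩ := hfo g.val r hr hpow
  rw [Matrix.det_fin_two] at f1 f2 f3
  rw [Matrix.trace_fin_two] at f1 f2
  generalize hx : g.val 0 0 = x at *
  generalize hy : g.val 0 1 = y at *
  generalize hz : g.val 1 0 = z at *
  generalize hw : g.val 1 1 = w at *
  generalize A.val 0 0 = a at *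
  generalize A.val 0 1 = b at *
  generalize A.val 1 0 = c at *
  generalize A.val 1 1 = d at *
  have hdisc : b ^ 2 * ((x + w) ^ 2 - 4 * (x * w - y * z)) = y ^ 2 * ((a + d) ^ 2 - 4) := by
    have h1 : b * (w - x) = y * (d - a) := by linarith
    have h2 : b ^ 2 * ((x + w) ^ 2 - 4 * (x * w - y * z)) = (b * (w - x)) ^ 2 + 4 * y * b * (b * z) := by
      ring
    rw [h2, h1, e10]
    linear_combination (-4 * y ^ 2) * hdA
  have hT : 0 < (a + d) ^ 2 - 4 := by nlinarith
  rcases f3 with f3 | f3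
  · rcases f1 f3 with h | h | h
    · exfalso
      rw [f3] at hdisc
      have hs : (x + w) ^ 2 ≤ 1 := by
        rw [← sq_abs]
        have := abs_nonneg (x + w)
        nlinarith
      have hb : 0 < b ^ 2 := by positivity
      have hy0 : 0 ≤ y ^ 2 := sq_nonneg y
      nlinarith [mul_nonneg hy0 hT.le, mul_pos hb (show (0 : ℤ) < 4 - (x + w) ^ 2 by linarith)]
    · left
      exact Units.ext h
    · right
      exact Units.ext h
  · exfalso
    obtain ⟨ht, -⟩ := f2 f3
    rw [ht, f3] at hdisc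
    have hy0 : y ≠ 0 := by
      rintro rfl
      have : b ^ 2 = 0 := by linarith
      exact hq (pow_eq_zero_iff (by norm_num) |>.1 this)
    have hdvd : y ^ 2 ∣ (2 * b) ^ 2 := ⟨(a + d) ^ 2 - 4, by linarith⟩
    obtain ⟨k, hk⟩ := (Int.pow_dvd_pow_iff (by norm_num)).1 hdvd
    refine tor_sq (a + d) k htA ?_
    have h1 : y ^ 2 * (k * k) = y ^ 2 * ((a + d) * (a + d) - 4) := by
      have : y ^ 2 * (k * k) = (y * k) ^ 2 := by ring
      rw [this, ← hk]
      linarith
    exact mul_left_cancel₀ (pow_ne_zero 2 hy0) h1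

end Pool.Agent.F8.OV
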