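import Pool.Agent.Lib.MP_305fdd_al.F8.StmO

/-!
# MP_305fdd_al: overgroups of `F ⋊ ℤ`, assembly of the main result
-/

set_option autoImplicit false

namespace Pool.Agent.F8.OV

open Pool.Agent.MP_305fdd_al Pool.Agent.Lib.MP_305fdd_al Pool.Agent.F2X Pool.Agent.F8
  Pool.Agent.F8.HN

/-- [F8o OV] -/
theorem p_OV (hact : S_act) (hpr : S_pr) (hinj : S_inj) (hcjg : S_cjg) (hiso : S_iso)
    (hfai : S_fai) (hfin : S_fin) (hpw : S_pw) (hsame : Pool.Agent.F2X.S_same)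
    (hfgrf : Pool.Agent.F2X.S_fgrf) : S_OV := by
  intro α hα hLo hs0 hR Γ _ N n hn hN hNfin he0 hK Λ _ hΛ
  obtain ⟨e0⟩ := he0
  obtain ⟨hfg, hrf, hs⟩ := hΛ
  have hβ : Hyp (AM (α ^ n)) := by
    have h := (hpw (AM α) hα).2.1 n hn
    rwa [← map_pow] at h
  obtain ⟨hrig, hreg⟩ := hR n hn
  have hfgΓ : Group.FG Γ := (hfin (α ^ n)).2 Γ N hNfin ⟨e0⟩
  obtain ⟨Φ⟩ := exists_natBij hs.symm
  let π : Γ →* Γ ⧸ N := QuotientGroup.mk' N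
  have hπ : Function.Surjective π := QuotientGroup.mk'_surjective N
  have hπ' : Function.Surjective (Φ.toFun (Γ ⧸ N) π) := by
    rw [← MonoidHom.range_eq_top, Φ.range_eq, MonoidHom.range_eq_top]
    exact hπ
  let e : π.ker ≃* GA (α ^ n) := (MulEquiv.subgroupCongr (QuotientGroup.ker_mk' N)).trans e0
  have hsm : SameFiniteQuotients (Φ.toFun (Γ ⧸ N) π).ker π.ker := hsame Γ Λ Φ (Γ ⧸ N) π hπ
  have hfi : (Φ.toFun (Γ ⧸ N) π).ker.FiniteIndex := Subgroup.finiteIndex_ker _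
  have hfiπ : π.ker.FiniteIndex := Subgroup.finiteIndex_ker _
  obtain ⟨hMfg, hMrf⟩ := hfgrf Λ (Φ.toFun (Γ ⧸ N) π).ker hfi hfg hrf
  have hsm' : SameFiniteQuotients (Φ.toFun (Γ ⧸ N) π).ker (GA (α ^ n)) :=
    hsm.trans (sameFQ_of_surj e.toMonoidHom e.surjective e.symm.toMonoidHom e.symm.surjective)
  obtain ⟨e'⟩ := hrig (Φ.toFun (Γ ⧸ N) π).ker ⟨hMfg, hMrf, hsm'⟩
  obtain ⟨X, _⟩ := hact (α ^ n) hβ Γ π.ker inferInstance e
  obtain ⟨X', _⟩ := hact (α ^ n) hβ Λ (Φ.toFun (Γ ⧸ N) π).ker inferInstance e'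
  have hXc : Function.Injective X.c :=
    (hfai (α ^ n) hβ Γ π.ker X).2.1 inferInstance hfiπ hK
  have hP : Pr Φ X X' := hpr (α ^ n) hβ hreg Γ Λ Φ (Γ ⧸ N) π X X' hMfg hMrf hsm'
  have hXc' : Function.Injective X'.c := hinj α n hα hn Γ Λ Φ (Γ ⧸ N) π X X' hP hXc
  exact hiso (α ^ n) Γ Λ π.ker (Φ.toFun (Γ ⧸ N) π).ker X X' hXc hXc'
    (hcjg α n hα hLo hs0 hn Γ Λ Φ (Γ ⧸ N) π X X' hP)

end Pool.Agent.F8.OV
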