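import Pool.Agent.Lib.MP_305fdd_al.F8.StmO

/-!
# MP_305fdd_al, [F8o hy]: the matrix of `phi` is hyperbolic and inverted by the matrix of `aX`
-/

set_option autoImplicit false

namespace Pool.Agent.F8.OV

open Pool.Agent.MP_305fdd_al Pool.Agent.Lib.MP_305fdd_al Pool.Agent.F2X Pool.Agent.F8
  Pool.Agent.F8.HN

theorem hy_phi : (AM phi).val = !![3, 1; -1, 0] := by
  rw [AM_val, amat_eq]
  show !![vec (phi ga) 0, vec (phi gb) 0; vec (phi ga) 1, vec (phi gb) 1] = _
  simp

theorem hy_aX : (AM aX).val = !![0, 1; 1, 0] := by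
  rw [AM_val, amat_eq]
  show !![vec (aX ga) 0, vec (aX gb) 0; vec (aX ga) 1, vec (aX gb) 1] = _
  simp

theorem p_hy : S_hy := by
  refine ⟨⟨?_, ?_⟩, ?_⟩
  · rw [hy_phi, Matrix.det_fin_two_of]; norm_num
  · rw [hy_phi, Matrix.trace_fin_two_of]; norm_num
  · have h1 : (AM aX)⁻¹ = AM aX := by
      rw [inv_eq_iff_mul_eq_one]
      apply Units.ext
      rw [Units.val_mul, hy_aX, Matrix.mul_fin_two, Units.val_one, Matrix.one_fin_two]
      norm_num
    rw [h1]
    symm
    rw [inv_eq_iff_mul_eq_one]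
    apply Units.ext
    rw [Units.val_mul, Units.val_mul, Units.val_mul, hy_aX, hy_phi, Matrix.mul_fin_two,
      Matrix.mul_fin_two, Matrix.mul_fin_two, Units.val_one, Matrix.one_fin_two]
    norm_num

end Pool.Agent.F8.OV
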