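import Pool.Agent.Lib.MP_305fdd_al.F8.StmO

/-!
# MP_305fdd_al: the local-global principle for the matrix `[[7, 4], [-2, -1]]` (the monodromy `L² R²`)

`A = C²`, `C = [[3, 2], [-1, -1]]`, `C² = 2 C + 1`, `ℤ[C] = ℤ[√2]`, `A = 2 C + 1`. The matrices which commute with `A` are the
`x + y C`. If `s` inverts `A` then `s C s⁻¹ = -C⁻¹ = 2 - C`. Modulo `4` the units of the form `x / x̄` are `1` and `-A`.
-/

set_option autoImplicit false

namespace Pool.Agent.F8.OV

open Pool.Agent.MP_305fdd_al Pool.Agent.Lib.MP_305fdd_al Pool.Agent.F2X Pool.Agent.F8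
  Pool.Agent.F8.HN
open scoped QuadraticAlgebra

section lo1

variable {A : GL (Fin 2) ℤ}

/-- the square root of `A` -/
private def l1_C : GL (Fin 2) ℤ where
  val := !![3, 2; -1, -1]
  inv := !![1, 2; -1, -3]
  val_inv := by
    ext i j
    fin_cases i <;> fin_cases j <;> simp [Matrix.mul_apply, Fin.sum_univ_two]
  inv_val := by
    ext i j
    fin_cases i <;> fin_cases j <;> simp [Matrix.mul_apply, Fin.sum_univ_two]

private theorem l1_CC (hA : A.val = !![7, 4; -2, -1]) : l1_C * l1_C = A := by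
  apply Units.ext
  rw [Units.val_mul, hA]
  show !![3, 2; -1, -1] * !![3, 2; -1, -1] = _
  ext i j
  fin_cases i <;> fin_cases j <;> simp [Matrix.mul_apply, Fin.sum_univ_two]

private theorem l1_inv (hA : A.val = !![7, 4; -2, -1]) : (A⁻¹).val = !![-1, -4; 2, 7] := by
  have h : A.val * !![-1, -4; 2, 7] = 1 := by
    rw [hA]
    ext i j
    fin_cases i <;> fin_cases j <;> simp [Matrix.mul_apply, Fin.sum_univ_two]
  calc (A⁻¹).val = (A⁻¹).val * (A.val * !![-1, -4; 2, 7]) := by rw [h, mul_one]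
    _ = !![-1, -4; 2, 7] := by rw [← mul_assoc, ← Units.val_mul, inv_mul_cancel, Units.val_one,
      one_mul]

/-- an element which inverts `A` maps `C` to `-C⁻¹` -/
private theorem l1_conj (hA : A.val = !![7, 4; -2, -1]) (s : GL (Fin 2) ℤ)
    (hs : s * A * s⁻¹ = A⁻¹) : s * l1_C * s⁻¹ = -l1_C⁻¹ := by
  apply Units.ext
  have h1 := congrArg Units.val hs
  have hA1 : A.val = l1_C.val + l1_C.val + 1 := by
    rw [hA]
    show _ = !![3, 2; -1, -1] + !![3, 2; -1, -1] + 1
    ext i j
    fin_cases i <;> fin_cases j <;> simp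
  have hA2 : (A⁻¹).val = -(l1_C⁻¹).val + -(l1_C⁻¹).val + 1 := by
    rw [l1_inv hA]
    show _ = -!![1, 2; -1, -3] + -!![1, 2; -1, -3] + 1
    ext i j
    fin_cases i <;> fin_cases j <;> simp
  rw [Units.val_mul, Units.val_mul, hA1, hA2, mul_add, mul_add, add_mul, add_mul, mul_one,
    ← Units.val_mul s s⁻¹, mul_inv_cancel, Units.val_one] at h1
  rw [Units.val_mul, Units.val_mul, Units.val_neg]
  have h2 := add_right_cancel h1
  ext i j
  have h3 := congrFun (congrFun h2 i) j
  rw [Matrix.add_apply, Matrix.add_apply] at h3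
  omega

/-- the entries of a matrix which commutes with `A` -/
private theorem l1_comm (hA : A.val = !![7, 4; -2, -1]) (g : GL (Fin 2) ℤ) (hg : g * A = A * g) :
    g.val 0 0 = g.val 1 1 - 4 * g.val 1 0 ∧ g.val 0 1 = -2 * g.val 1 0 := by
  have hval := congrArg Units.val hg
  rw [Units.val_mul, Units.val_mul, hA] at hval
  have e00 := congrFun (congrFun hval 0) 0
  have e10 := congrFun (congrFun hval 1) 0
  simp only [Matrix.mul_apply, Fin.sum_univ_two, Matrix.of_apply, Matrix.cons_val', Matrix.cons_val_zero,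
    Matrix.cons_val_one, Matrix.cons_val_fin_one] at e00 e10
  constructor <;> linarith

private theorem l1_un (hA : A.val = !![7, 4; -2, -1]) (N : ℕ) : ∀ g : GL (Fin 2) ℤ, g * A = A * g →
    g.val.det = 1 → (g.val 1 0).natAbs ≤ N → ∃ j : ℤ, g = A ^ j ∨ g = -(A ^ j) := by
  induction N using Nat.strong_induction_on with
  | _ N ih =>
    intro g hg hdet hN
    obtain ⟨h00, h01⟩ := l1_comm hA g hg
    obtain ⟨y, hy⟩ : ∃ y, y = g.val 1 0 := ⟨_, rfl⟩
    obtain ⟨z, hz⟩ : ∃ z, z = g.val 1 1 - 2 * g.val 1 0 := ⟨_, rfl⟩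
    have h11 : g.val 1 1 = z + 2 * y := by rw [hz, hy]; ring
    rw [← hy] at h00 h01 hN
    rw [h11] at h00
    rw [Matrix.det_fin_two, h00, h01, h11, ← hy] at hdet
    have hd : z * z = 1 + 2 * (y * y) := by linarith
    by_cases hy0 : y = 0
    · rw [hy0] at hd h00 h01 h11 hy
      have hx : z * z = 1 := by linarith
      rcases Int.eq_one_or_neg_one_of_mul_eq_one' hx with ⟨h, -⟩ | ⟨h, -⟩
      · refine ⟨0, Or.inl ?_⟩
        rw [zpow_zero]
        apply Units.ext
        ext i j
        fin_cases i <;> fin_cases j <;> simp [h00, h01, h11, ← hy, h]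
      · refine ⟨0, Or.inr ?_⟩
        rw [zpow_zero]
        apply Units.ext
        rw [Units.val_neg, Units.val_one]
        ext i j
        fin_cases i <;> fin_cases j <;> simp [h00, h01, h11, ← hy, h]
    · have hy2 : 1 ≤ y * y := by
        have := mul_self_pos.2 hy0
        omega
      -- `|3 y - 2 z|` or `|3 y + 2 z|` is smaller than `|y|`
      have key : |3 * y - 2 * z| < |y| ∨ |3 * y + 2 * z| < |y| := by
        have hp : (3 * y - 2 * z) * (3 * y + 2 * z) = y * y - 4 := by linear_combination (-4) * hd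
        by_contra hcon
        push Not at hcon
        obtain ⟨c1, c2⟩ := hcon
        rcases le_total 0 (y * z) with hyz | hyz
        · -- `|3 y - 2 z| ≥ |y|` is impossible
          have c3 : y * y ≤ (3 * y - 2 * z) * (3 * y - 2 * z) := by
            have := mul_self_le_mul_self (abs_nonneg y) c1
            rwa [abs_mul_abs_self, abs_mul_abs_self] at this
          have c4 : 3 * (y * z) ≤ 4 * (y * y) + 1 := by nlinarith
          have c5 : (y * z) * (y * z) = (y * y) * (1 + 2 * (y * y)) := by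
            rw [← hd]; ring
          nlinarith [mul_self_nonneg (y * z), mul_self_nonneg (y * y)]
        · have c3 : y * y ≤ (3 * y + 2 * z) * (3 * y + 2 * z) := by
            have := mul_self_le_mul_self (abs_nonneg y) c2
            rwa [abs_mul_abs_self, abs_mul_abs_self] at this
          have c4 : 3 * (-(y * z)) ≤ 4 * (y * y) + 1 := by nlinarith
          have c5 : (y * z) * (y * z) = (y * y) * (1 + 2 * (y * y)) := by
            rw [← hd]; ring
          nlinarith [mul_self_nonneg (y * z), mul_self_nonneg (y * y)]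
      have hgA : ∀ e : ℤ, g * A ^ e * A = A * (g * A ^ e) := by
        intro e
        rw [← mul_assoc, ← hg, mul_assoc, mul_assoc, ← zpow_add_one, ← zpow_one_add, add_comm]
      have hdA : A.val.det = 1 := by rw [hA, Matrix.det_fin_two_of]; norm_num
      have hdAi : (A⁻¹).val.det = 1 := by rw [l1_inv hA, Matrix.det_fin_two_of]; norm_num
      rcases key with hk | hk
      · -- multiply with `A⁻¹` or `A`
        have e2 : ((g * A ^ (1 : ℤ)).val 1 0) = 3 * y - 2 * z := by
          rw [zpow_one, Units.val_mul, hA, Matrix.mul_apply, Fin.sum_univ_two, h11, ← hy]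
          simp
          ring
        have hlt : ((g * A ^ (1 : ℤ)).val 1 0).natAbs < N := by
          have e3 := Int.natCast_natAbs (3 * y - 2 * z)
          have e4 := Int.natCast_natAbs y
          rw [e2]; omega
        obtain ⟨j, hj⟩ := ih _ hlt (g * A ^ (1 : ℤ)) (hgA 1) (by
          rw [zpow_one, Units.val_mul, Matrix.det_mul, hdA, mul_one, Matrix.det_fin_two, h00, h01, h11, ← hy]
          exact hdet) le_rfl
        refine ⟨j - 1, ?_⟩
        rcases hj with hj | hj
        · left; rw [zpow_sub, ← hj]; group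
        · right; rw [zpow_sub, ← neg_mul, ← hj]; group
      · have e2 : ((g * A ^ (-1 : ℤ)).val 1 0) = 3 * y + 2 * z := by
          rw [zpow_neg_one, Units.val_mul, l1_inv hA, Matrix.mul_apply, Fin.sum_univ_two, h11, ← hy]
          simp
          ring
        have hlt : ((g * A ^ (-1 : ℤ)).val 1 0).natAbs < N := by
          have e3 := Int.natCast_natAbs (3 * y + 2 * z)
          have e4 := Int.natCast_natAbs y
          rw [e2]; omega
        obtain ⟨j, hj⟩ := ih _ hlt (g * A ^ (-1 : ℤ)) (hgA (-1)) (by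
          rw [zpow_neg_one, Units.val_mul, Matrix.det_mul, hdAi, mul_one, Matrix.det_fin_two, h00, h01, h11, ← hy]
          exact hdet) le_rfl
        refine ⟨j + 1, ?_⟩
        rcases hj with hj | hj
        · left; rw [zpow_add, ← hj]; group
        · right; rw [zpow_add, ← neg_mul, ← hj]; group

private theorem l1_cast : ∀ x : ZMod 8, 2 * x = 0 → ZMod.castHom (show 4 ∣ 8 from ⟨2, rfl⟩) (ZMod 4) x = 0 := by
  decide

private theorem l1_h4 : ZMod.castHom (show 4 ∣ 8 from ⟨2, rfl⟩) (ZMod 4) 4 = 0 := by decide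

private theorem l1_h2 : ZMod.castHom (show 4 ∣ 8 from ⟨2, rfl⟩) (ZMod 4) 2 = -2 := by decide

private theorem l1_red4 (g : GL (Fin 2) ℤ) (i j : Fin 2) : (red 4 g).val i j = ((g.val i j : ℤ) : ZMod 4) := rfl

/-- `A ^ j` modulo `4` -/
private theorem l1_pow (hA : A.val = !![7, 4; -2, -1]) (j : ℤ) :
    (Even j → red 4 (A ^ j) = 1) ∧ (¬ Even j → red 4 (A ^ j) = red 4 A) := by
  have h2 : red 4 A * red 4 A = 1 := by
    have h : (red 4 A).val = !![3, 0; 2, 3] := by
      ext i j
      rw [l1_red4, hA]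
      fin_cases i <;> fin_cases j <;> simp <;> decide
    apply Units.ext
    rw [Units.val_mul, h, Units.val_one]
    decide
  have h3 : (red 4 A) ^ (2 : ℤ) = 1 := by rw [zpow_two, h2]
  constructor
  · rintro ⟨i, rfl⟩
    rw [map_zpow, ← two_mul, zpow_mul, h3, one_zpow]
  · intro h
    rw [Int.not_even_iff_odd] at h
    obtain ⟨i, rfl⟩ := h
    rw [map_zpow, zpow_add, zpow_mul, h3, one_zpow, one_mul, zpow_one]

private theorem l1_c1 : ∀ c d p r : ZMod 4, IsUnit (d ^ 2 - 2 * c ^ 2) → IsUnit p →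
    d * p + 2 * c * r ≠ -(p * d + 2 * r * c) := by decide

private theorem l1_c2 : ∀ c d p r : ZMod 4, IsUnit (d ^ 2 - 2 * c ^ 2) → IsUnit p →
    d * p + 2 * c * r ≠ 3 * (p * d + 2 * r * c) := by decide

theorem lo_one (hA : A.val = !![7, 4; -2, -1]) : Lo A := by
  refine ⟨8, by norm_num, ?_⟩
  rintro s s' hs hs' ⟨X8, hX8A, hX8⟩
  have h48 : 4 ∣ 8 := ⟨2, rfl⟩
  obtain ⟨X, hX0⟩ : ∃ X, X = redm h48 X8 := ⟨_, rfl⟩
  have hX : X * red 4 s = red 4 s' * X := by
    have := congrArg (redm h48) hX8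
    rwa [map_mul, map_mul, redm_red, redm_red, ← hX0] at this
  -- the entries of `X`
  have hXe : ∀ i j, X.val i j = ZMod.castHom h48 (ZMod 4) (X8.val i j) := by
    intro i j; rw [hX0]; rfl
  have h8 : ∀ i j, (red 8 A).val i j = ((A.val i j : ℤ) : ZMod 8) := fun i j => rfl
  have hXc : X.val 0 0 = X.val 1 1 ∧ X.val 0 1 = 2 * X.val 1 0 := by
    have hval := congrArg Units.val hX8A
    rw [Units.val_mul, Units.val_mul] at hval
    have e00 := congrFun (congrFun hval 0) 0
    have e10 := congrFun (congrFun hval 1) 0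
    simp only [Matrix.mul_apply, Fin.sum_univ_two, h8, hA] at e00 e10
    simp at e00 e10
    constructor
    · have h := l1_cast (X8.val 0 0 - X8.val 1 1 + 4 * X8.val 1 0) (by
        linear_combination e10)
      rw [map_add, map_sub, map_mul, ← hXe, ← hXe, ← hXe] at h
      rw [l1_h4] at h
      linear_combination h
    · have h := l1_cast (X8.val 0 1 + 2 * X8.val 1 0) (by
        linear_combination -e00)
      rw [map_add, map_mul, ← hXe, ← hXe] at h
      rw [l1_h2] at h
      linear_combination h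
  have hXu : IsUnit (X.val 1 1 ^ 2 - 2 * X.val 1 0 ^ 2) := by
    have h2 : IsUnit X.val.det := (Matrix.isUnit_iff_isUnit_det _).1 X.isUnit
    rw [Matrix.det_fin_two, hXc.1, hXc.2] at h2
    convert h2 using 1
    ring
  have hdet1 : ∀ g : GL (Fin 2) ℤ, g.val.det = 1 ∨ g.val.det = -1 := fun g =>
    Int.isUnit_iff.1 ((Matrix.isUnit_iff_isUnit_det _).1 g.isUnit)
  have hreddet : ∀ g : GL (Fin 2) ℤ, (red 4 g).val.det = ((g.val.det : ℤ) : ZMod 4) := by
    intro g
    show (g.val.map (Int.castRingHom (ZMod 4))).det = _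
    rw [← RingHom.mapMatrix_apply, ← RingHom.map_det]
    rfl
  have hdd : s'.val.det = s.val.det := by
    have h1 := congrArg (fun g : GL (Fin 2) (ZMod 4) => g.val.det) hX
    simp only [Units.val_mul, Matrix.det_mul, hreddet] at h1
    rw [mul_comm] at h1
    have h2 : IsUnit X.val.det := (Matrix.isUnit_iff_isUnit_det _).1 X.isUnit
    have h3 : ((s.val.det : ℤ) : ZMod 4) = ((s'.val.det : ℤ) : ZMod 4) := h2.mul_right_cancel h1
    rcases hdet1 s with h4 | h4 <;> rcases hdet1 s' with h5 | h5 <;> rw [h4, h5] at h3 ⊢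
    · exact absurd h3 (by decide)
    · exact absurd h3 (by decide)
  obtain ⟨u, hu⟩ : ∃ u, u = s' * s⁻¹ := ⟨_, rfl⟩
  have hsi : s⁻¹ * A * s = A⁻¹ := by
    have h1 : s⁻¹ * A⁻¹ * s = A := by
      rw [← hs]; group
    calc s⁻¹ * A * s = (s⁻¹ * A⁻¹ * s)⁻¹ := by group
      _ = A⁻¹ := by rw [h1]
  have hsi' : s' * A⁻¹ * s'⁻¹ = A := by
    calc s' * A⁻¹ * s'⁻¹ = (s' * A * s'⁻¹)⁻¹ := by group
      _ = A := by rw [hs', inv_inv]
  have huA : u * A = A * u := by
    have h1 : u * A * u⁻¹ = A := by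
      calc u * A * u⁻¹ = s' * (s⁻¹ * A * s) * s'⁻¹ := by rw [hu]; group
        _ = A := by rw [hsi, hsi']
    calc u * A = u * A * u⁻¹ * u := by group
      _ = A * u := by rw [h1]
  have hudet : u.val.det = 1 := by
    have h1 : (u * s).val.det = s'.val.det := by rw [hu]; congr 2; group
    rw [Units.val_mul, Matrix.det_mul, hdd] at h1
    rcases hdet1 s with h | h <;> rw [h] at h1 <;> linarith
  have hus : s' = u * s := by rw [hu]; group
  -- the entries of `s`
  obtain ⟨p, hp⟩ : ∃ p, p = s.val 0 0 := ⟨_, rfl⟩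
  obtain ⟨r, hr⟩ : ∃ r, r = s.val 1 0 := ⟨_, rfl⟩
  have hse : s.val 0 1 = 4 * p + 2 * r ∧ s.val 1 1 = -p := by
    have h1 : s * A = A⁻¹ * s := by rw [← hs]; group
    have hval := congrArg Units.val h1
    rw [Units.val_mul, Units.val_mul, hA, l1_inv hA] at hval
    have e00 := congrFun (congrFun hval 0) 0
    have e10 := congrFun (congrFun hval 1) 0
    simp only [Matrix.mul_apply, Fin.sum_univ_two] at e00 e10
    simp at e00 e10
    constructor <;> linarith
  have hp4 : IsUnit ((p : ℤ) : ZMod 4) := by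
    have h1 := hdet1 s
    rw [Matrix.det_fin_two, hse.1, hse.2, ← hp, ← hr] at h1
    have h2 : ¬ 2 ∣ p := by
      rintro ⟨q, hq⟩
      subst hq
      rcases h1 with h1 | h1 <;> ring_nf at h1 <;> omega
    have h3 : ∀ x : ZMod 4, 2 * x ≠ 0 → IsUnit x := by decide
    apply h3
    intro h4
    apply h2
    have h5 : ((2 * p : ℤ) : ZMod 4) = 0 := by push_cast; exact h4
    rw [ZMod.intCast_zmod_eq_zero_iff_dvd] at h5
    obtain ⟨q, hq⟩ := h5
    exact ⟨q, by push_cast at hq; omega⟩
  -- the entry `(0, 0)` of `X s = u s X`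
  have h00 : (X * red 4 s).val 0 0 = X.val 1 1 * (p : ZMod 4) + 2 * X.val 1 0 * (r : ZMod 4) := by
    rw [Units.val_mul, Matrix.mul_apply, Fin.sum_univ_two, l1_red4, l1_red4, hXc.1, hXc.2, ← hp, ← hr]
  have hsX0 : (red 4 s * X).val 0 0 = (p : ZMod 4) * X.val 1 1 + 2 * (r : ZMod 4) * X.val 1 0 := by
    rw [Units.val_mul, Matrix.mul_apply, Fin.sum_univ_two, l1_red4, l1_red4, hXc.1, hse.1, ← hp]
    push_cast
    have h4 : (4 : ZMod 4) = 0 := by decide
    rw [h4]; ring
  have hXuu : X * red 4 s = red 4 u * (red 4 s * X) := by rw [hX, hus, map_mul, mul_assoc]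
  obtain ⟨j, hj⟩ := l1_un hA _ u huA hudet le_rfl
  have hneg : ∀ g : GL (Fin 2) ℤ, (red 4 (-g)).val = -(red 4 g).val := by
    intro g
    show (-g).val.map (Int.castRingHom (ZMod 4)) = -(g.val.map (Int.castRingHom (ZMod 4)))
    rw [Units.val_neg]
    ext i j
    simp
  have hA0 : ∀ Z : GL (Fin 2) (ZMod 4), (red 4 A * Z).val 0 0 = 3 * Z.val 0 0 := by
    intro Z
    rw [Units.val_mul, Matrix.mul_apply, Fin.sum_univ_two, l1_red4, l1_red4, hA]
    have h4 : (4 : ZMod 4) = 0 := by decide
    have h7 : (7 : ZMod 4) = 3 := by decide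
    simp [h4, h7]
  have hcase : u = (-A) ^ j := by
    by_cases hev : Even j
    · rcases hj with hj | hj
      · rw [hj, hev.neg_zpow]
      · exfalso
        have h1 := congrArg (fun g : GL (Fin 2) (ZMod 4) => g.val 0 0) hXuu
        rw [h00, Units.val_mul, hj, hneg, (l1_pow hA j).1 hev, Units.val_one, neg_mul, one_mul,
          Matrix.neg_apply, hsX0] at h1
        exact l1_c1 _ _ _ _ hXu hp4 h1
    · rcases hj with hj | hj
      · exfalso
        have h1 := congrArg (fun g : GL (Fin 2) (ZMod 4) => g.val 0 0) hXuu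
        rw [h00, hj, (l1_pow hA j).2 hev, hA0, hsX0] at h1
        exact l1_c2 _ _ _ _ hXu hp4 h1
      · rw [hj, (Int.not_even_iff_odd.1 hev).neg_zpow]
  have hCA : l1_C * A = A * l1_C := by rw [← l1_CC hA, mul_assoc]
  refine ⟨l1_C ^ j, ?_, ?_⟩
  · exact (Commute.zpow_left (show Commute l1_C A from hCA) j)
  · have h1 : s * l1_C ^ (-j) * s⁻¹ = (-l1_C) ^ j := by
      rw [← conj_zpow, l1_conj hA s hs, zpow_neg, ← inv_zpow, inv_neg, inv_inv]
    have h2 : l1_C ^ j * (-l1_C) ^ j = (-A) ^ j := by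
      rw [← (show Commute l1_C (-l1_C) from (Commute.refl _).neg_right).mul_zpow, mul_neg, l1_CC hA]
    calc l1_C ^ j * s = l1_C ^ j * (s * l1_C ^ (-j) * s⁻¹) * s * l1_C ^ j := by group
      _ = s' * l1_C ^ j := by rw [h1, h2, hus, hcase]

end lo1

end Pool.Agent.F8.OV
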