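import Pool.Agent.Lib.MP_305fdd_al.F8.StmO

/-!
# MP_305fdd_al: the local-global principle for the matrix `[[4, 1], [-1, 0]]` (the monodromy `L² R`)

`ℤ[A] = ℤ[√3]`, the units are `± A ^ j`. The elements `-1` and `A` are not of the form `x / x̄` modulo `3`, and
`-A` is not of this form modulo `2`.
-/

set_option autoImplicit false

namespace Pool.Agent.F8.OV

open Pool.Agent.MP_305fdd_al Pool.Agent.Lib.MP_305fdd_al Pool.Agent.F2X Pool.Agent.F8
  Pool.Agent.F8.HN
open scoped QuadraticAlgebra

section lo7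

variable {A : GL (Fin 2) ℤ}

private theorem l7_inv (hA : A.val = !![4, 1; -1, 0]) : (A⁻¹).val = !![0, -1; 1, 4] := by
  have h : A.val * !![0, -1; 1, 4] = 1 := by
    rw [hA]
    ext i j
    fin_cases i <;> fin_cases j <;> simp [Matrix.mul_apply, Fin.sum_univ_two]
  calc (A⁻¹).val = (A⁻¹).val * (A.val * !![0, -1; 1, 4]) := by rw [h, mul_one]
    _ = !![0, -1; 1, 4] := by rw [← mul_assoc, ← Units.val_mul, inv_mul_cancel, Units.val_one,
      one_mul]

private theorem l7_un (hA : A.val = !![4, 1; -1, 0]) (N : ℕ) : ∀ g : GL (Fin 2) ℤ, g * A = A * g →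
    g.val.det = 1 → (g.val 0 1).natAbs ≤ N → ∃ j : ℤ, g = A ^ j ∨ g = -(A ^ j) := by
  induction N using Nat.strong_induction_on with
  | _ N ih =>
    intro g hg hdet hN
    have hval := congrArg Units.val hg
    rw [Units.val_mul, Units.val_mul, hA] at hval
    have e01 := congrFun (congrFun hval 0) 1
    have e11 := congrFun (congrFun hval 1) 1
    simp only [Matrix.mul_apply, Fin.sum_univ_two, Matrix.of_apply, Matrix.cons_val', Matrix.cons_val_zero,
      Matrix.cons_val_one, Matrix.cons_val_fin_one] at e01 e11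
    have h00 : g.val 0 0 = 4 * g.val 0 1 + g.val 1 1 := by linarith
    have h10 : g.val 1 0 = -g.val 0 1 := by linarith
    rw [Matrix.det_fin_two, h00, h10] at hdet
    by_cases hy : g.val 0 1 = 0
    · rw [hy] at hdet h00 h10
      have hx : g.val 1 1 * g.val 1 1 = 1 := by linarith
      rcases Int.eq_one_or_neg_one_of_mul_eq_one' hx with ⟨h, -⟩ | ⟨h, -⟩
      · refine ⟨0, Or.inl ?_⟩
        rw [zpow_zero]
        apply Units.ext
        ext i j
        fin_cases i <;> fin_cases j <;> simp [h00, h10, hy, h]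
      · refine ⟨0, Or.inr ?_⟩
        rw [zpow_zero]
        apply Units.ext
        rw [Units.val_neg, Units.val_one]
        ext i j
        fin_cases i <;> fin_cases j <;> simp [h00, h10, hy, h]
    · have hprod : g.val 1 1 * (4 * g.val 0 1 + g.val 1 1) = 1 - g.val 0 1 * g.val 0 1 := by
        linarith
      have hcases : (g.val 1 1).natAbs < (g.val 0 1).natAbs ∨
          (4 * g.val 0 1 + g.val 1 1).natAbs < (g.val 0 1).natAbs := by
        by_contra hcon
        push Not at hcon
        obtain ⟨h1', h2'⟩ := hcon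
        have h1 : |g.val 0 1| ≤ |g.val 1 1| := by
          rw [Int.abs_eq_natAbs, Int.abs_eq_natAbs]; exact_mod_cast h1'
        have h2 : |g.val 0 1| ≤ |4 * g.val 0 1 + g.val 1 1| := by
          rw [Int.abs_eq_natAbs, Int.abs_eq_natAbs]; exact_mod_cast h2'
        have h3 : |g.val 0 1| * |g.val 0 1| ≤ |g.val 1 1| * |4 * g.val 0 1 + g.val 1 1| :=
          mul_le_mul h1 h2 (abs_nonneg _) (abs_nonneg _)
        rw [← abs_mul (g.val 1 1), hprod, abs_mul_abs_self] at h3
        have h4 : 1 ≤ g.val 0 1 * g.val 0 1 := by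
          have := mul_self_pos.2 hy
          omega
        rw [abs_of_nonpos (by linarith)] at h3
        linarith
      have hdetA : A.val.det = 1 := by rw [hA]; simp [Matrix.det_fin_two]
      have hdetAi : (A⁻¹).val.det = 1 := by rw [l7_inv hA]; simp [Matrix.det_fin_two]
      have hdet1 : g.val.det = 1 := by rw [Matrix.det_fin_two, h00, h10]; exact hdet
      rcases hcases with h | h
      · have hent : (g * A⁻¹).val 0 1 = -g.val 1 1 := by
          rw [Units.val_mul, l7_inv hA, Matrix.mul_apply, Fin.sum_univ_two]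
          simp only [Matrix.of_apply, Matrix.cons_val', Matrix.cons_val_zero, Matrix.cons_val_one,
            Matrix.cons_val_fin_one]
          linarith
        have hlt : ((g * A⁻¹).val 0 1).natAbs < N := by
          rw [hent, Int.natAbs_neg]
          omega
        obtain ⟨j, hj⟩ := ih _ hlt (g * A⁻¹)
          (by rw [mul_assoc, inv_mul_cancel, mul_one, ← mul_assoc, ← hg, mul_assoc, mul_inv_cancel,
            mul_one])
          (by rw [Units.val_mul, Matrix.det_mul, hdet1, hdetAi, one_mul]) le_rfl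
        refine ⟨j + 1, ?_⟩
        have hg' : g = g * A⁻¹ * A := by rw [mul_assoc, inv_mul_cancel, mul_one]
        rcases hj with hj | hj
        · left
          rw [hg', hj, zpow_add, zpow_one]
        · right
          rw [hg', hj, zpow_add, zpow_one, neg_mul]
      · have hent : (g * A).val 0 1 = 4 * g.val 0 1 + g.val 1 1 := by
          rw [Units.val_mul, hA, Matrix.mul_apply, Fin.sum_univ_two]
          simp only [Matrix.of_apply, Matrix.cons_val', Matrix.cons_val_zero, Matrix.cons_val_one,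
            Matrix.cons_val_fin_one]
          linarith
        have hlt : ((g * A).val 0 1).natAbs < N := by
          rw [hent]
          omega
        obtain ⟨j, hj⟩ := ih _ hlt (g * A) (by rw [hg, mul_assoc, hg])
          (by rw [Units.val_mul, Matrix.det_mul, hdet1, hdetA, one_mul]) le_rfl
        refine ⟨j - 1, ?_⟩
        have hg' : g = g * A * A⁻¹ := by rw [mul_assoc, mul_inv_cancel, mul_one]
        rcases hj with hj | hj
        · left
          rw [hg', hj, zpow_sub, zpow_one]
        · right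
          rw [hg', hj, zpow_sub, zpow_one, neg_mul]

private theorem l7_red (hA : A.val = !![4, 1; -1, 0]) (m : ℕ) :
    (red m A).val = !![4, 1; -1, 0] := by
  show A.val.map (Int.castRingHom (ZMod m)) = _
  rw [hA]
  ext i j
  fin_cases i <;> fin_cases j <;> simp

private theorem l7_comm (hA : A.val = !![4, 1; -1, 0]) (m : ℕ) (X : GL (Fin 2) (ZMod m))
    (h : X * red m A = red m A * X) : X.val 0 0 = 4 * X.val 0 1 + X.val 1 1 ∧
      X.val 1 0 = -X.val 0 1 := by
  have h1 := congrArg Units.val h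
  rw [Units.val_mul, Units.val_mul, l7_red hA] at h1
  have e01 := congrFun (congrFun h1 0) 1
  have e11 := congrFun (congrFun h1 1) 1
  simp only [Matrix.mul_apply, Fin.sum_univ_two, Matrix.of_apply, Matrix.cons_val', Matrix.cons_val_zero,
    Matrix.cons_val_one, Matrix.cons_val_fin_one] at e01 e11
  exact ⟨by linear_combination e01, by linear_combination e11⟩

/-- the row vector `(1, -1)` modulo `3` -/
private def l7_l : Fin 2 → ZMod 3 := ![1, -1]

private theorem l7_h3 : (3 : ZMod 3) = 0 := by decide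
private theorem l7_h2 : (2 : ZMod 3) ≠ 0 := by decide
private theorem l7_h1 : ((1 : ℤ) : ZMod 3) ≠ ((-1 : ℤ) : ZMod 3) := by decide
private theorem l7_hne : ∀ c : ZMod 3, c ≠ 0 → c • l7_l ≠ -(c • l7_l) := by decide

private theorem l7_eig (hA : A.val = !![4, 1; -1, 0]) (X : GL (Fin 2) (ZMod 3))
    (h : X * red 3 A = red 3 A * X) :
    Matrix.vecMul l7_l X.val = (X.val 1 1 - X.val 0 1) • l7_l ∧
    X.val.det = (X.val 1 1 - X.val 0 1) ^ 2 ∧ X.val.trace = 2 * (X.val 1 1 - X.val 0 1) := by
  obtain ⟨h00, h10⟩ := l7_comm hA 3 X h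
  refine ⟨?_, ?_, ?_⟩
  · ext i
    fin_cases i
    · simp only [l7_l, Matrix.vecMul, dotProduct, Fin.sum_univ_two, Pi.smul_apply, smul_eq_mul,
        Matrix.cons_val_zero, Matrix.cons_val_one, Fin.zero_eta, Fin.isValue]
      rw [h00, h10]
      linear_combination 2 * X.val 0 1 * l7_h3
    · simp only [l7_l, Matrix.vecMul, dotProduct, Fin.sum_univ_two, Pi.smul_apply, smul_eq_mul,
        Matrix.cons_val_zero, Matrix.cons_val_one, Fin.mk_one, Fin.isValue]
      ring
  · rw [Matrix.det_fin_two, h00, h10]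
    linear_combination 2 * X.val 0 1 * X.val 1 1 * l7_h3
  · rw [Matrix.trace_fin_two, h00]
    linear_combination 2 * X.val 0 1 * l7_h3

private theorem l7_pow (hA : A.val = !![4, 1; -1, 0]) (j : ℤ) :
    (Even j → Matrix.vecMul l7_l (red 3 (A ^ j)).val = l7_l) ∧
    (¬ Even j → Matrix.vecMul l7_l (red 3 (A ^ j)).val = -l7_l) := by
  have hAl : Matrix.vecMul l7_l (red 3 A).val = -l7_l := by
    rw [l7_red hA]
    decide
  have hAi : Matrix.vecMul l7_l ((red 3 A)⁻¹).val = -l7_l := by
    have h1 : Matrix.vecMul (Matrix.vecMul l7_l (red 3 A).val) ((red 3 A)⁻¹).val =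
        l7_l := by
      rw [Matrix.vecMul_vecMul, ← Units.val_mul, mul_inv_cancel, Units.val_one, Matrix.vecMul_one]
    rw [hAl, Matrix.neg_vecMul] at h1
    exact neg_eq_iff_eq_neg.1 h1
  induction j using Int.induction_on with
  | zero =>
    refine ⟨fun _ => ?_, fun h => absurd (Even.zero) h⟩
    rw [zpow_zero, map_one, Units.val_one, Matrix.vecMul_one]
  | succ i ih =>
    rw [zpow_add, zpow_one, map_mul, Units.val_mul, ← Matrix.vecMul_vecMul]
    constructor
    · intro h
      rw [ih.2 (by rw [Int.even_add_one] at h; exact h), Matrix.neg_vecMul, hAl, neg_neg]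
    · intro h
      rw [ih.1 (by rw [Int.even_add_one, not_not] at h; exact h), hAl]
  | pred i ih =>
    rw [zpow_sub, zpow_one, map_mul, map_inv, Units.val_mul, ← Matrix.vecMul_vecMul]
    constructor
    · intro h
      rw [ih.2 (by rw [Int.even_sub_one] at h; exact h), Matrix.neg_vecMul, hAi, neg_neg]
    · intro h
      rw [ih.1 (by rw [Int.even_sub_one, not_not] at h; exact h), hAi]

/-- `A ^ j` is trivial modulo `2` only if `j` is even -/
private theorem l7_two (hA : A.val = !![4, 1; -1, 0]) (j : ℤ) (h : red 2 (A ^ j) = 1) :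
    Even j := by
  have h2 : red 2 A * red 2 A = 1 := by
    apply Units.ext
    rw [Units.val_mul, l7_red hA, Units.val_one]
    decide
  by_contra hj
  rw [Int.not_even_iff_odd] at hj
  obtain ⟨i, hi⟩ := hj
  have h3 : red 2 (A ^ j) = red 2 A := by
    rw [hi, map_zpow, zpow_add, zpow_mul, zpow_two, h2, one_zpow, one_mul, zpow_one]
  rw [h3] at h
  have h4 := congrArg (fun g : GL (Fin 2) (ZMod 2) => g.val 0 1) h
  simp only [l7_red hA, Units.val_one] at h4
  revert h4
  decide

theorem lo_four (hA : A.val = !![4, 1; -1, 0]) : Lo A := by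
  refine ⟨6, by norm_num, ?_⟩
  rintro s s' hs hs' ⟨X6, hX6A, hX6⟩
  have h36 : 3 ∣ 6 := ⟨2, rfl⟩
  have h26 : 2 ∣ 6 := ⟨3, rfl⟩
  -- modulo 3 and modulo 2
  obtain ⟨X, hX0⟩ : ∃ X, X = redm h36 X6 := ⟨_, rfl⟩
  have hXA : X * red 3 A = red 3 A * X := by
    have := congrArg (redm h36) hX6A
    rwa [map_mul, map_mul, redm_red, ← hX0] at this
  have hX : X * red 3 s = red 3 s' * X := by
    have := congrArg (redm h36) hX6
    rwa [map_mul, map_mul, redm_red, redm_red, ← hX0] at this
  obtain ⟨W, hW0⟩ : ∃ W, W = redm h26 X6 := ⟨_, rfl⟩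
  have hWA : W * red 2 A = red 2 A * W := by
    have := congrArg (redm h26) hX6A
    rwa [map_mul, map_mul, redm_red, ← hW0] at this
  have hW : W * red 2 s = red 2 s' * W := by
    have := congrArg (redm h26) hX6
    rwa [map_mul, map_mul, redm_red, redm_red, ← hW0] at this
  obtain ⟨hXl, hXd, hXt⟩ := l7_eig hA X hXA
  have : Fact (Nat.Prime 3) := ⟨by norm_num⟩
  have hc0 : X.val 1 1 - X.val 0 1 ≠ 0 := by
    intro h
    have h1 : X.val.det = 0 := by rw [hXd, h]; ring
    have h2 : IsUnit X.val.det := (Matrix.isUnit_iff_isUnit_det _).1 X.isUnit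
    rw [h1] at h2
    exact not_isUnit_zero h2
  have hdet1 : ∀ g : GL (Fin 2) ℤ, g.val.det = 1 ∨ g.val.det = -1 := fun g =>
    Int.isUnit_iff.1 ((Matrix.isUnit_iff_isUnit_det _).1 g.isUnit)
  have hreddet : ∀ g : GL (Fin 2) ℤ, (red 3 g).val.det = ((g.val.det : ℤ) : ZMod 3) := by
    intro g
    show (g.val.map (Int.castRingHom (ZMod 3))).det = _
    rw [← RingHom.mapMatrix_apply, ← RingHom.map_det]
    rfl
  have hdd : s'.val.det = s.val.det := by
    have h1 := congrArg (fun g : GL (Fin 2) (ZMod 3) => g.val.det) hX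
    simp only [Units.val_mul, Matrix.det_mul, hreddet] at h1
    rw [mul_comm] at h1
    have h2 : X.val.det ≠ 0 := by rw [hXd]; exact pow_ne_zero 2 hc0
    have h3 : ((s.val.det : ℤ) : ZMod 3) = ((s'.val.det : ℤ) : ZMod 3) := mul_right_cancel₀ h2 h1
    rcases hdet1 s with h4 | h4 <;> rcases hdet1 s' with h5 | h5 <;> rw [h4, h5] at h3 ⊢
    · exact absurd h3 l7_h1
    · exact absurd h3.symm l7_h1
  obtain ⟨u, hu⟩ : ∃ u, u = s' * s⁻¹ := ⟨_, rfl⟩
  have hsi : s⁻¹ * A * s = A⁻¹ := by
    have h1 : s⁻¹ * A⁻¹ * s = A := by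
      rw [← hs]; group
    calc s⁻¹ * A * s = (s⁻¹ * A⁻¹ * s)⁻¹ := by group
      _ = A⁻¹ := by rw [h1]
  have hsi' : s' * A⁻¹ * s'⁻¹ = A := by
    calc s' * A⁻¹ * s'⁻¹ = (s' * A * s'⁻¹)⁻¹ := by group
      _ = A := by rw [hs', inv_inv]
  have huA : u * A = A * u := by
    have h1 : u * A * u⁻¹ = A := by
      calc u * A * u⁻¹ = s' * (s⁻¹ * A * s) * s'⁻¹ := by rw [hu]; group
        _ = A := by rw [hsi, hsi']
    calc u * A = u * A * u⁻¹ * u := by group
      _ = A * u := by rw [h1]
  have hudet : u.val.det = 1 := by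
    have h1 : (u * s).val.det = s'.val.det := by rw [hu]; congr 2; group
    rw [Units.val_mul, Matrix.det_mul, hdd] at h1
    rcases hdet1 s with h | h <;> rw [h] at h1 <;> linarith
  have hus : s' = u * s := by rw [hu]; group
  obtain ⟨Xb, hXb⟩ : ∃ Xb, Xb = red 3 s * X * (red 3 s)⁻¹ := ⟨_, rfl⟩
  have hXbA : Xb * red 3 A = red 3 A * Xb := by
    have h1 : red 3 s * red 3 A * (red 3 s)⁻¹ = (red 3 A)⁻¹ := by
      rw [← map_mul, ← map_inv, ← map_mul, hs, map_inv]
    have h2 : (red 3 s)⁻¹ * red 3 A * red 3 s = (red 3 A)⁻¹ := by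
      rw [← map_inv, ← map_mul, ← map_mul, hsi, map_inv]
    have h4 : X * (red 3 A)⁻¹ = (red 3 A)⁻¹ * X := by
      calc X * (red 3 A)⁻¹ = (red 3 A)⁻¹ * (red 3 A * X) * (red 3 A)⁻¹ := by
            group
        _ = (red 3 A)⁻¹ * X := by rw [← hXA]; group
    have h5 : red 3 s * (red 3 A)⁻¹ * (red 3 s)⁻¹ = red 3 A := by
      calc red 3 s * (red 3 A)⁻¹ * (red 3 s)⁻¹ =
          (red 3 s * red 3 A * (red 3 s)⁻¹)⁻¹ := by group
        _ = red 3 A := by rw [h1, inv_inv]
    calc Xb * red 3 A = red 3 s * X * ((red 3 s)⁻¹ * red 3 A * red 3 s) *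
          (red 3 s)⁻¹ := by rw [hXb]; group
      _ = red 3 s * (X * (red 3 A)⁻¹) * (red 3 s)⁻¹ := by rw [h2]; group
      _ = (red 3 s * (red 3 A)⁻¹ * (red 3 s)⁻¹) * (red 3 s * X * (red 3 s)⁻¹) := by
          rw [h4]; group
      _ = red 3 A * Xb := by rw [h5, hXb]
  obtain ⟨hXbl, -, hXbt⟩ := l7_eig hA Xb hXbA
  have hXu : X = red 3 u * Xb := by
    have h1 : X * red 3 s = red 3 u * red 3 s * X := by rw [hX, hus, map_mul]
    calc X = X * red 3 s * (red 3 s)⁻¹ := by group
      _ = red 3 u * Xb := by rw [h1, hXb]; group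
  have heig : Xb.val 1 1 - Xb.val 0 1 = X.val 1 1 - X.val 0 1 := by
    have htr : Xb.val.trace = X.val.trace := by
      rw [hXb, Units.val_mul, Matrix.trace_mul_comm, ← Units.val_mul, ← mul_assoc, inv_mul_cancel,
        one_mul]
    rw [hXbt, hXt] at htr
    exact mul_left_cancel₀ l7_h2 htr
  have hXX := hXl
  rw [hXu, Units.val_mul, ← Matrix.vecMul_vecMul] at hXX
  rw [← Units.val_mul, ← hXu] at hXX
  rw [heig] at hXbl
  have hneg : ∀ g : GL (Fin 2) ℤ, (red 3 (-g)).val = -(red 3 g).val := by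
    intro g
    show (-g).val.map (Int.castRingHom (ZMod 3)) = -(g.val.map (Int.castRingHom (ZMod 3)))
    rw [Units.val_neg]
    ext i j
    simp
  -- modulo 2
  have hu2 : red 2 u = 1 := by
    have hAA : red 2 A = (red 2 A)⁻¹ := by
      rw [eq_inv_iff_mul_eq_one]
      apply Units.ext
      rw [Units.val_mul, l7_red hA, Units.val_one]
      decide
    have hsA : red 2 s * red 2 A = red 2 A * red 2 s := by
      have h1 : red 2 s * red 2 A * (red 2 s)⁻¹ = (red 2 A)⁻¹ := by
        rw [← map_mul, ← map_inv, ← map_mul, hs, map_inv]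
      rw [← hAA] at h1
      calc red 2 s * red 2 A = red 2 s * red 2 A * (red 2 s)⁻¹ * red 2 s := by group
        _ = red 2 A * red 2 s := by rw [h1]
    obtain ⟨w00, w10⟩ := l7_comm hA 2 W hWA
    have h4 : (4 : ZMod 2) = 0 := by decide
    have hWe : W.val = (W.val 1 1) • (1 : Matrix (Fin 2) (Fin 2) (ZMod 2)) +
        (W.val 0 1) • (red 2 A).val := by
      rw [l7_red hA]
      ext i j
      fin_cases i <;> fin_cases j
      · simp [w00, h4]
      · simp
      · simp [w10]
      · simp
    have hWs : W * red 2 s = red 2 s * W := by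
      apply Units.ext
      have h5 := congrArg Units.val hsA
      rw [Units.val_mul, Units.val_mul] at h5
      rw [Units.val_mul, Units.val_mul, hWe, add_mul, mul_add, smul_mul_assoc, mul_smul_comm,
        smul_mul_assoc, mul_smul_comm, one_mul, mul_one, h5]
    have h6 : red 2 s' = red 2 s := by
      rw [hWs] at hW
      exact (mul_right_cancel hW).symm
    rw [hu, map_mul, map_inv, h6, mul_inv_cancel]
  obtain ⟨j, hj⟩ := l7_un hA _ u huA hudet le_rfl
  have hneg2 : ∀ g : GL (Fin 2) ℤ, red 2 (-g) = red 2 g := by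
    intro g
    apply Units.ext
    show (-g).val.map (Int.castRingHom (ZMod 2)) = g.val.map (Int.castRingHom (ZMod 2))
    rw [Units.val_neg]
    ext i j
    simp only [Matrix.map_apply, Matrix.neg_apply, map_neg]
    exact ZMod.neg_eq_self_mod_two _
  have hev : Even j := by
    apply l7_two hA
    rcases hj with hj | hj
    · rw [← hj]; exact hu2
    · rw [← hneg2, ← hj]; exact hu2
  have hpow := (l7_pow hA j).1 hev
  rcases hj with hj | hj
  · obtain ⟨i, hi⟩ := hev
    refine ⟨A ^ i, (Commute.refl A).zpow_left i, ?_⟩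
    have h1 : (s * A * s⁻¹) ^ (-i) = A⁻¹ ^ (-i) := by rw [hs]
    rw [conj_zpow] at h1
    have h2 : s * A ^ (-i) = A ^ i * s := by
      calc s * A ^ (-i) = s * A ^ (-i) * s⁻¹ * s := by group
        _ = A ^ i * s := by rw [h1, inv_zpow, zpow_neg, inv_inv]
    have h3 : s = A ^ i * s * A ^ i := by
      rw [← h2, mul_assoc, ← zpow_add, neg_add_cancel, zpow_zero, mul_one]
    calc A ^ i * s = A ^ i * (A ^ i * s * A ^ i) := by rw [← h3]
      _ = s' * A ^ i := by rw [hus, hj, hi, zpow_add]; simp only [mul_assoc]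
  · exfalso
    rw [hj, hneg, Matrix.vecMul_neg, hpow, Matrix.neg_vecMul, hXbl] at hXX
    exact l7_hne _ hc0 hXX.symm

end lo7

end Pool.Agent.F8.OV
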