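import Pool.Agent.Lib.MP_305fdd_al.F8.StmO

/-!
# MP_305fdd_al, piece [F8o un]: the units of norm one
-/

set_option autoImplicit false

namespace Pool.Agent.F8.OV

open Pool.Agent.MP_305fdd_al Pool.Agent.Lib.MP_305fdd_al Pool.Agent.F2X Pool.Agent.F8
  Pool.Agent.F8.HN
open scoped QuadraticAlgebra

private theorem un_val : (AM phi).val = !![3, 1; -1, 0] := by
  rw [AM_val, amat_eq]
  show !![vec (phi ga) 0, vec (phi gb) 0; vec (phi ga) 1, vec (phi gb) 1] = _
  rw [phi_ga, phi_gb]
  simp only [vec_mul, vec_inv, vec_of]
  ext i j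
  fin_cases i <;> fin_cases j <;> simp

private theorem un_inv : ((AM phi)⁻¹).val = !![0, -1; 1, 3] := by
  have h : (AM phi).val * !![0, -1; 1, 3] = 1 := by
    rw [un_val]
    ext i j
    fin_cases i <;> fin_cases j <;> simp [Matrix.mul_apply, Fin.sum_univ_two]
  calc ((AM phi)⁻¹).val = ((AM phi)⁻¹).val * ((AM phi).val * !![0, -1; 1, 3]) := by rw [h, mul_one]
    _ = !![0, -1; 1, 3] := by rw [← mul_assoc, ← Units.val_mul, inv_mul_cancel, Units.val_one,
      one_mul]

private theorem un_main (N : ℕ) : ∀ g : GL (Fin 2) ℤ, g * AM phi = AM phi * g → g.val.det = 1 →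
    (g.val 0 1).natAbs ≤ N → ∃ j : ℤ, g = AM phi ^ j ∨ g = -(AM phi ^ j) := by
  induction N using Nat.strong_induction_on with
  | _ N ih =>
    intro g hg hdet hN
    have hval := congrArg Units.val hg
    rw [Units.val_mul, Units.val_mul, un_val] at hval
    have e01 := congrFun (congrFun hval 0) 1
    have e11 := congrFun (congrFun hval 1) 1
    simp only [Matrix.mul_apply, Fin.sum_univ_two, Matrix.of_apply, Matrix.cons_val', Matrix.cons_val_zero,
      Matrix.cons_val_one, Matrix.cons_val_fin_one] at e01 e11
    -- `g 0 0 = 3 y + x`, `g 1 0 = - y`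
    have h00 : g.val 0 0 = 3 * g.val 0 1 + g.val 1 1 := by linarith
    have h10 : g.val 1 0 = -g.val 0 1 := by linarith
    rw [Matrix.det_fin_two, h00, h10] at hdet
    by_cases hy : g.val 0 1 = 0
    · rw [hy] at hdet h00 h10
      have hx : g.val 1 1 * g.val 1 1 = 1 := by linarith
      rcases Int.eq_one_or_neg_one_of_mul_eq_one' hx with ⟨h, -⟩ | ⟨h, -⟩
      · refine ⟨0, Or.inl ?_⟩
        rw [zpow_zero]
        apply Units.ext
        ext i j
        fin_cases i <;> fin_cases j <;> simp [h00, h10, hy, h]
      · refine ⟨0, Or.inr ?_⟩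
        rw [zpow_zero]
        apply Units.ext
        rw [Units.val_neg, Units.val_one]
        ext i j
        fin_cases i <;> fin_cases j <;> simp [h00, h10, hy, h]
    · have hprod : g.val 1 1 * (3 * g.val 0 1 + g.val 1 1) = 1 - g.val 0 1 * g.val 0 1 := by
        linarith
      have hcases : (g.val 1 1).natAbs < (g.val 0 1).natAbs ∨
          (3 * g.val 0 1 + g.val 1 1).natAbs < (g.val 0 1).natAbs := by
        by_contra hcon
        push Not at hcon
        obtain ⟨h1', h2'⟩ := hcon
        have h1 : |g.val 0 1| ≤ |g.val 1 1| := by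
          rw [Int.abs_eq_natAbs, Int.abs_eq_natAbs]; exact_mod_cast h1'
        have h2 : |g.val 0 1| ≤ |3 * g.val 0 1 + g.val 1 1| := by
          rw [Int.abs_eq_natAbs, Int.abs_eq_natAbs]; exact_mod_cast h2'
        have h3 : |g.val 0 1| * |g.val 0 1| ≤ |g.val 1 1| * |3 * g.val 0 1 + g.val 1 1| :=
          mul_le_mul h1 h2 (abs_nonneg _) (abs_nonneg _)
        rw [← abs_mul (g.val 1 1), hprod, abs_mul_abs_self] at h3
        have h4 : 1 ≤ g.val 0 1 * g.val 0 1 := by
          have := mul_self_pos.2 hy
          omega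
        rw [abs_of_nonpos (by linarith)] at h3
        linarith
      have hdetA : (AM phi).val.det = 1 := by rw [un_val]; simp [Matrix.det_fin_two]
      have hdetAi : ((AM phi)⁻¹).val.det = 1 := by rw [un_inv]; simp [Matrix.det_fin_two]
      have hdet1 : g.val.det = 1 := by rw [Matrix.det_fin_two, h00, h10]; exact hdet
      rcases hcases with h | h
      · -- multiply with the inverse
        have hent : (g * (AM phi)⁻¹).val 0 1 = -g.val 1 1 := by
          rw [Units.val_mul, un_inv, Matrix.mul_apply, Fin.sum_univ_two]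
          simp only [Matrix.of_apply, Matrix.cons_val', Matrix.cons_val_zero, Matrix.cons_val_one,
            Matrix.cons_val_fin_one]
          linarith
        have hlt : ((g * (AM phi)⁻¹).val 0 1).natAbs < N := by
          rw [hent, Int.natAbs_neg]
          omega
        obtain ⟨j, hj⟩ := ih _ hlt (g * (AM phi)⁻¹)
          (by rw [mul_assoc, inv_mul_cancel, mul_one, ← mul_assoc, ← hg, mul_assoc, mul_inv_cancel,
            mul_one])
          (by rw [Units.val_mul, Matrix.det_mul, hdet1, hdetAi, one_mul]) le_rfl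
        refine ⟨j + 1, ?_⟩
        have hg' : g = g * (AM phi)⁻¹ * AM phi := by rw [mul_assoc, inv_mul_cancel, mul_one]
        rcases hj with hj | hj
        · left
          rw [hg', hj, zpow_add, zpow_one]
        · right
          rw [hg', hj, zpow_add, zpow_one, neg_mul]
      · have hent : (g * AM phi).val 0 1 = 3 * g.val 0 1 + g.val 1 1 := by
          rw [Units.val_mul, un_val, Matrix.mul_apply, Fin.sum_univ_two]
          simp only [Matrix.of_apply, Matrix.cons_val', Matrix.cons_val_zero, Matrix.cons_val_one,
            Matrix.cons_val_fin_one]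
          linarith
        have hlt : ((g * AM phi).val 0 1).natAbs < N := by
          rw [hent]
          omega
        obtain ⟨j, hj⟩ := ih _ hlt (g * AM phi) (by rw [hg, mul_assoc, hg])
          (by rw [Units.val_mul, Matrix.det_mul, hdet1, hdetA, one_mul]) le_rfl
        refine ⟨j - 1, ?_⟩
        have hg' : g = g * AM phi * (AM phi)⁻¹ := by rw [mul_assoc, mul_inv_cancel, mul_one]
        rcases hj with hj | hj
        · left
          rw [hg', hj, zpow_sub, zpow_one]
        · right
          rw [hg', hj, zpow_sub, zpow_one, neg_mul]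

theorem p_un : S_un := fun g hg hdet => un_main _ g hg hdet le_rfl

end Pool.Agent.F8.OV
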